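import Mathlib
import Pool.Agent.Lib.MP_078bb2_an.RatC

set_option autoImplicit false

namespace Pool.Agent.Lib.MP_078bb2_an

open Metric Filter Topology ComplexConjugate
open scoped PowerSeries

variable {d n m k : ℕ} {p : ℝ}

theorem exists_disc (hI : IdealFin p d) (hP : PtFin p d) {T : Set (Fin (d + 1) → ℂ)}
    (hT : Psd (kern p) T) (h0 : AccPt 0 (𝓟 T)) :
    ∃ (ρ : ℝ) (Γ : ℂ → Fin (d + 1) → ℂ) (t₀ : ℂ) (δ : ℝ), Adm (d + 1) ρ ∧ 0 < δ ∧
      AnalyticOnNhd ℂ Γ (ball t₀ δ) ∧ (∀ t ∈ ball t₀ δ, Γ t ∈ hull ρ T) ∧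
      ∀ c : Fin (d + 2) → ℂ, (∀ t ∈ ball t₀ δ, ∑ j, c j * hom (Γ t) j = 0) → c = 0 := by
  obtain ⟨ρ₁, hρ₁, hc⟩ := core hI hT
  have hρ₁0 := hρ₁.1
  have hρ : 0 < ρ₁ / 2 := by positivity
  have hρ' : ρ₁ / 2 < ρ₁ := by linarith
  set ρ := ρ₁ / 2 with hρdef
  have hρc : (ρ : ℂ) ≠ 0 := by exact_mod_cast hρ.ne'
  obtain ⟨r, hr, hmon⟩ := exists_monic (isClosed_van ρ T) (hc ρ hρ hρ'.le)
  choose P hP1 hP2 using fun j : Fin d => hmon (uu j.succ)
  obtain ⟨ε, hε, hsurj⟩ := local_surj hI hP hT h0 (e := fun _ => 1) analyticAt_const one_ne_zero hρ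
  let B : Set (Fin (d + 1) → ℂ) := {z | z 0 ∈ ball (0 : ℂ) r ∧
    (∀ j, ((P j).map (evO r (z 0))).eval (z j.succ) = 0) ∧ (ρ : ℂ) • z ∈ hull ρ T}
  have hB : ¬ B.Countable := by
    intro hcount
    have h3 : (ball (0 : ℂ) (min ε (ρ * r))).Countable := by
      refine (hcount.image fun z => (ρ : ℂ) * z 0).mono fun c hc' => ?_
      rw [mem_ball_zero_iff, lt_min_iff] at hc'
      obtain ⟨z, hz, hzc⟩ := hsurj c hc'.1
      obtain ⟨u, rfl⟩ := exists_pd hρ hz.1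
      rw [mul_one, Pi.smul_apply, smul_eq_mul] at hzc
      have h4 : ‖u.1 0‖ < r := by
        have h5 := hc'.2
        rw [← hzc, norm_mul, Complex.norm_real, Real.norm_of_nonneg hρ.le] at h5
        exact lt_of_mul_lt_mul_left h5 hρ.le
      exact ⟨u.1, ⟨mem_ball_zero_iff.2 h4, fun j => hP2 j u ((mem_hull_iff hρ u).1 hz) h4, hz⟩, hzc⟩
    exact (Metric.measure_ball_pos MeasureTheory.volume (0 : ℂ) (by positivity)).ne'
      (h3.measure_zero _)
  obtain ⟨γ, t₀, hγ, hγ0, hγ1, hfr⟩ := exists_param P hP1 hB (fun z hz => hz.1) fun z hz => hz.2.1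
  have hhull : ∀ z ∈ B, (ρ : ℂ) • z ∈ hull ρ₁ T := fun z hz =>
    hull_mono hρ hρ'.le subset_rfl hz.2.2
  obtain ⟨δ, hδ, hD⟩ := Metric.mem_nhds_iff.1 (inter_mem hγ.eventually_analyticAt
    ((hγ.continuousAt.const_smul (ρ : ℂ)).norm.eventually
      (gt_mem_nhds (hγ0.2.2.1.trans_lt hρ'))))
  have hΓ : AnalyticOnNhd ℂ (fun t => (ρ : ℂ) • γ t) (ball t₀ δ) := fun t ht =>
    AnalyticAt.fun_const_smul (hD ht).1
  have hmem : ∀ t ∈ ball t₀ δ, (ρ : ℂ) • γ t ∈ hull ρ₁ T := fun t ht =>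
    ⟨le_of_lt (hD ht).2, fun f hf hf0 =>
      (hf.analyticAt_comp hρ₁0 isOpen_ball hΓ fun t ht =>
        le_of_lt (hD ht).2).eqOn_zero_of_preconnected_of_frequently_eq_zero
        (convex_ball t₀ δ).isPreconnected (mem_ball_self hδ)
        (hfr.mono fun s hs => (hhull _ hs).2 f hf hf0) ht⟩
  refine ⟨ρ₁, _, t₀, δ, hρ₁, hδ, hΓ, hmem, fun c hc1 => ?_⟩
  by_contra hc0
  refine hyperplane_fin hP (T := (fun t => (ρ : ℂ) • γ t) '' ball t₀ δ)
    ((psd_hull hρ₁ hT).mono ?_) (a := (ρ : ℂ) • γ t₀)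
    ?_ (ν := WithLp.toLp 2 fun j => conj (c j)) (fun h => hc0 ?_) ?_
  · rintro _ ⟨t, ht, rfl⟩
    exact hmem t ht
  · rw [accPt_iff_frequently]
    rw [frequently_nhdsWithin_iff] at hfr
    refine (hγ.continuousAt.const_smul (ρ : ℂ)).tendsto.frequently
      ((hfr.and_eventually (ball_mem_nhds t₀ hδ)).mono fun t ht =>
        ⟨fun h => ht.1.2 ?_, t, ht.2, rfl⟩)
    have h1 := congrFun h 0
    simpa [hγ1, hρc] using h1
  · ext j
    simpa using congrArg (fun v : Eh (d + 1) => v j) h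
  · rintro _ ⟨t, ht, rfl⟩
    rw [inner_hom_eq]
    simpa using hc1 t ht

/-- The Taylor series. -/
noncomputable def tay (f : ℂ → ℂ) (t : ℂ) : ℂ⟦X⟧ :=
  PowerSeries.mk fun j => iteratedDeriv j f t / j.factorial

theorem coeff_tay (f : ℂ → ℂ) (t : ℂ) (j : ℕ) :
    PowerSeries.coeff j (tay f t) = iteratedDeriv j f t / j.factorial := PowerSeries.coeff_mk _ _

theorem tay_congr {f g : ℂ → ℂ} {t : ℂ} (h : f =ᶠ[𝓝 t] g) : tay f t = tay g t := by
  ext j
  rw [coeff_tay, coeff_tay, h.iteratedDeriv_eq]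

theorem tay_mul {f g : ℂ → ℂ} {t : ℂ} (hf : AnalyticAt ℂ f t) (hg : AnalyticAt ℂ g t) :
    tay (f * g) t = tay f t * tay g t := by
  ext j
  rw [PowerSeries.coeff_mul, coeff_tay, iteratedDeriv_mul hf.contDiffAt hg.contDiffAt,
    Finset.Nat.sum_antidiagonal_eq_sum_range_succ_mk, Finset.sum_div]
  refine Finset.sum_congr rfl fun i hi => ?_
  have h1 : i ≤ j := Nat.lt_succ_iff.1 (Finset.mem_range.1 hi)
  have h2 : ((j.factorial : ℕ) : ℂ) = j.choose i * i.factorial * (j - i).factorial := by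
    exact_mod_cast (Nat.choose_mul_factorial_mul_factorial h1).symm
  have h3 : ((j.choose i : ℕ) : ℂ) ≠ 0 := by exact_mod_cast (Nat.choose_pos h1).ne'
  have h4 : ∀ l : ℕ, ((l.factorial : ℕ) : ℂ) ≠ 0 := fun l => by exact_mod_cast l.factorial_ne_zero
  rw [coeff_tay, coeff_tay, h2]
  have h5 := h4 i
  have h6 := h4 (j - i)
  field_simp

theorem tay_pow {f : ℂ → ℂ} {t : ℂ} (hf : AnalyticAt ℂ f t) (l : ℕ) :
    tay (f ^ l) t = tay f t ^ l := by
  induction l with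
  | zero =>
    ext j
    rw [pow_zero, pow_zero, coeff_tay, PowerSeries.coeff_one, Pi.one_def, iteratedDeriv_const]
    split_ifs with h <;> simp [h]
  | succ l ih => rw [pow_succ, tay_mul (hf.pow l) hf, ih, pow_succ]

theorem coeff_tay_sum {ι : Type} [Fintype ι] {f : ι → ℂ → ℂ} {t : ℂ} (hf : ∀ i, AnalyticAt ℂ (f i) t)
    (a : ι → ℂ) (j : ℕ) : PowerSeries.coeff j (tay (fun s => ∑ i, a i * f i s) t) =
      ∑ i, a i * PowerSeries.coeff j (tay (f i) t) := by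
  rw [coeff_tay, iteratedDeriv_fun_sum (f := fun i s => a i * f i s) fun i _ =>
    (analyticAt_const.mul (hf i)).contDiffAt,
    Finset.sum_div]
  exact Finset.sum_congr rfl fun i _ => by
    rw [iteratedDeriv_const_mul_field, coeff_tay, mul_div_assoc]

theorem le_order_of_tay {f : ℂ → ℂ} {t : ℂ} (hf : AnalyticAt ℂ f t) {N : ℕ}
    (h : ∀ j < N, PowerSeries.coeff j (tay f t) = 0) : (N : ℕ∞) ≤ analyticOrderAt f t :=
  (natCast_le_analyticOrderAt_iff_iteratedDeriv_eq_zero hf).2 fun j hj => by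
    have h1 := h j hj
    rw [coeff_tay, div_eq_zero_iff] at h1
    exact h1.resolve_right (by exact_mod_cast j.factorial_ne_zero)

theorem eq_zero_of_tay {f : ℂ → ℂ} {t : ℂ} (hf : AnalyticAt ℂ f t)
    (h : ∀ j, PowerSeries.coeff j (tay f t) = 0) : f =ᶠ[𝓝 t] 0 :=
  analyticOrderAt_eq_top.1 (ENat.eq_top_iff_forall_ge.2 fun _ => le_order_of_tay hf fun j _ => h j)

theorem mem_of_ann {X : Type} (W : Submodule ℂ (X → ℂ)) (hW : W.FG) {g : X → ℂ}
    (h : ∀ (ι : Type) [Fintype ι] (x : ι → X) (a : ι → ℂ),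
      (∀ f ∈ W, ∑ l, a l * f (x l) = 0) → ∑ l, a l * g (x l) = 0) : g ∈ W := by
  obtain ⟨N, s, rfl⟩ := Submodule.fg_iff_exists_fin_generating_family.1 hW
  have h1 : ∀ (f : X → ℂ) (a : X →₀ ℂ),
      Finsupp.linearCombination ℂ f a = ∑ l : a.support, a l * f l := fun f a => by
    rw [Finsupp.linearCombination_apply, Finsupp.sum, ← Finset.sum_coe_sort]
    rfl
  have h2 := mem_span_of_iInf_ker_le_ker (L := fun i => Finsupp.linearCombination ℂ (s i))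
    (K := Finsupp.linearCombination ℂ g) fun a ha => by
      rw [LinearMap.mem_ker, h1]
      refine h _ _ _ fun f hf => ?_
      obtain ⟨c, rfl⟩ := (Submodule.mem_span_range_iff_exists_fun ℂ).1 hf
      have h3 : ∀ i, ∑ l : a.support, a l * s i l = 0 := fun i => by
        rw [← h1]
        exact (Submodule.mem_iInf _).1 ha i
      simp only [Finset.sum_apply, Pi.smul_apply, smul_eq_mul, Finset.mul_sum]
      rw [Finset.sum_comm]
      exact Finset.sum_eq_zero fun i _ => by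
        simp only [mul_left_comm _ (c i)]
        rw [← Finset.mul_sum, h3, mul_zero]
  obtain ⟨c, hc⟩ := (Submodule.mem_span_range_iff_exists_fun ℂ).1 h2
  refine (Submodule.mem_span_range_iff_exists_fun ℂ).2 ⟨c, funext fun x => ?_⟩
  simpa using LinearMap.congr_fun hc (Finsupp.single x 1)

theorem Hol.mul {ρ : ℝ} {f g : (Fin n → ℂ) → ℂ} (hf : Hol ρ f) (hg : Hol ρ g) :
    Hol ρ fun z => f z * g z := by
  obtain ⟨F, hF⟩ := hf
  obtain ⟨G, hG⟩ := hg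
  exact ⟨F * G, fun u => by rw [map_mul, hF, hG]⟩

theorem hol_sum {ρ : ℝ} {ι : Type} [Fintype ι] {f : ι → (Fin n → ℂ) → ℂ} (hf : ∀ i, Hol ρ (f i))
    (a : ι → ℂ) : Hol ρ fun z => ∑ i, a i * f i z := by
  choose F hF using hf
  exact ⟨∑ i, a i • F i, fun u => by simp only [map_sum, map_smul, hF, smul_eq_mul]⟩

theorem hol_lin (ρ : ℝ) (a : Fin (n + 1) → ℂ) : Hol ρ fun z => ∑ j, a j * hom z j := by
  simpa [inner_hom_eq] using hol_inner ρ (WithLp.toLp 2 fun j => conj (a j))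

theorem kern_conj {ρ : ℝ} (hρ : Adm n ρ) {z w : Fin n → ℂ} (hz : ‖z‖ ≤ ρ) (hw : ‖w‖ ≤ ρ) :
    kern p w z = conj (kern p z w) := by
  rw [kern, kern, ← conj_cpow_of_re_pos (re_one_add_herm_pos hρ hz hw).2, map_add, map_one,
    herm_conj]

theorem hol_kern {ρ : ℝ} (hρ : Adm n ρ) {T : Set (Fin n → ℂ)} (hT : Psd (kern p) T)
    {x : Fin n → ℂ} (hx : x ∈ hull ρ T) :
    ∃ g, Hol ρ g ∧ ∀ z ∈ hull ρ T, g z = kern p z x := by
  have hN : 0 < ‖hom x‖ := norm_pos_iff.2 (hom_ne_zero x)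
  obtain ⟨g, hg, hg', -⟩ := hilbert_hull hρ ((psd_hull hρ hT).schur hx
    (fun z hz => kern_conj hρ hz.1 hx.1) (R := ‖hom x‖ ^ p) (by positivity) (by
      rw [kern, ← inner_hom, inner_self_eq_norm_sq_to_K, Complex.ofReal_cpow hN.le, sq, sq]
      exact Complex.mul_cpow_ofReal_nonneg hN.le hN.le _))
  refine ⟨_, hol_sum (ι := Unit) (fun _ => hg) fun _ => ((‖hom x‖ ^ p : ℝ) : ℂ), fun z hz => ?_⟩
  have h1 : ((‖hom x‖ ^ p : ℝ) : ℂ) ≠ 0 := by exact_mod_cast (Real.rpow_pos_of_pos hN p).ne'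
  rw [Fintype.sum_unique, hg' z hz hz.1, mul_div_cancel₀ _ h1]

theorem rank_hull {ρ : ℝ} (hρ : Adm n ρ) {T : Set (Fin n → ℂ)} (hT : Psd (kern p) T) {N : ℕ}
    {w : Fin N → Fin n → ℂ} (hw : ∀ i, w i ∈ hull ρ T)
    (h : ∀ v ∈ T, ‖v‖ ≤ ρ → ∃ c : Fin N → ℂ, ∀ z ∈ T, ‖z‖ ≤ ρ →
      kern p z v = ∑ i, c i * kern p z (w i))
    {ι : Type} [Fintype ι] {x : ι → Fin n → ℂ} {a : ι → ℂ} (hx : ∀ l, x l ∈ hull ρ T)
    (ha : ∀ i, ∑ l, a l * kern p (x l) (w i) = 0) {v : Fin n → ℂ} (hv : v ∈ hull ρ T) :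
    ∑ l, a l * kern p (x l) v = 0 := by
  choose! g hg hg' using fun x (hx : x ∈ hull ρ T) => hol_kern hρ hT hx
  have h1 : ∀ v ∈ T, ‖v‖ ≤ ρ → ∑ l, a l * kern p (x l) v = 0 := fun v hv hv' => by
    obtain ⟨c, hc⟩ := h v hv hv'
    have h2 := mem_hull_of_mem hv hv'
    have h3 : ∀ l, kern p (x l) v = ∑ i, c i * kern p (x l) (w i) := fun l => by
      have h4 := (hx l).2 _ ((hg v h2).sub (hol_sum (fun i => hg _ (hw i)) c)) fun z hz hz' => by
        have h5 := mem_hull_of_mem hz hz'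
        simp only [hg' v h2 z h5, fun i => hg' _ (hw i) z h5]
        rw [hc z hz hz', sub_self]
      simp only [hg' v h2 _ (hx l), fun i => hg' _ (hw i) _ (hx l)] at h4
      exact sub_eq_zero.1 h4
    simp only [h3, Finset.mul_sum]
    rw [Finset.sum_comm]
    exact Finset.sum_eq_zero fun i _ => by
      simp only [mul_left_comm _ (c i)]
      rw [← Finset.mul_sum, ha, mul_zero]
  have h2 : ∀ v ∈ hull ρ T, ∑ l, conj (a l) * g (x l) v = conj (∑ l, a l * kern p (x l) v) :=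
    fun v hv => by
      rw [map_sum]
      exact Finset.sum_congr rfl fun l _ => by
        rw [map_mul, hg' _ (hx l) v hv, kern_conj hρ (hx l).1 hv.1]
  have h3 := hv.2 _ (hol_sum (fun l => hg _ (hx l)) fun l => conj (a l)) fun z hz hz' => by
    rw [h2 z (mem_hull_of_mem hz hz'), h1 z hz hz', map_zero]
  rwa [h2 v hv, map_eq_zero] at h3

end Pool.Agent.Lib.MP_078bb2_an
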