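import Mathlib

set_option autoImplicit false

namespace Pool.Agent.Lib.MP_078bb2_an

open IntermediateField IsDedekindDomain Polynomial

open scoped IntermediateField.algebraAdjoinAdjoin in
theorem not_forall_dvr {L K : Type} [Field L] [CharZero L] [Field K] [Algebra L K] {w : K}
    (hz : Transcendental L w⁻¹) [FiniteDimensional L⟮w⁻¹⟯ K]
    (h : ∀ O : ValuationSubring K, IsPrincipalIdealRing O → (∀ c : L, algebraMap L K c ∈ O) →
      w ∈ O) : False := by
  have hw0 : w ≠ 0 := by
    rintro rfl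
    exact hz (by simpa using isAlgebraic_zero)
  haveI : IsPrincipalIdealRing (Algebra.adjoin L {w⁻¹}) :=
    IsPrincipalIdealRing.of_surjective
      (Polynomial.algEquivOfTranscendental L w⁻¹ hz).toRingEquiv.toRingHom
      (Polynomial.algEquivOfTranscendental L w⁻¹ hz).surjective
  haveI : IsDedekindDomain (integralClosure (Algebra.adjoin L {w⁻¹}) K) :=
    integralClosure.isDedekindDomain (Algebra.adjoin L {w⁻¹}) L⟮w⁻¹⟯ K
  haveI : IsFractionRing (integralClosure (Algebra.adjoin L {w⁻¹}) K) K :=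
    IsIntegralClosure.isFractionRing_of_finite_extension (Algebra.adjoin L {w⁻¹}) L⟮w⁻¹⟯ K _
  obtain ⟨x, hx⟩ := HeightOneSpectrum.mem_integers_of_valuation_le_one
    (R := integralClosure (Algebra.adjoin L {w⁻¹}) K) K w fun v => by
      have h1 := h (v.valuationSubringAtPrime K) inferInstance fun c => by
        rw [HeightOneSpectrum.valuationSubringAtPrime_eq_valuationSubring,
          Valuation.mem_valuationSubring_iff]
        exact v.valuation_le_one (K := K) (algebraMap (Algebra.adjoin L {w⁻¹}) _ (algebraMap L _ c))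
      rwa [HeightOneSpectrum.valuationSubringAtPrime_eq_valuationSubring,
        Valuation.mem_valuationSubring_iff] at h1
  have h2 : IsIntegral (Algebra.adjoin L {w⁻¹}) w := by
    have h3 : IsIntegral (Algebra.adjoin L {w⁻¹}) (x : K) := x.2
    have h4 : (x : K) = w := hx
    rwa [h4] at h3
  exact hz (isIntegral_of_isIntegral_adjoin_of_mul_eq_one w w⁻¹ (inv_mul_cancel₀ hw0)
    h2).isAlgebraic.inv

/-- An element of a finitely generated field over the complex numbers that lies in every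
discrete valuation ring is a constant. -/
theorem const_of_forall_dvr {K : Type} [Field K] [Algebra ℂ K] [Algebra.EssFiniteType ℂ K] {w : K}
    (h : ∀ O : ValuationSubring K, IsPrincipalIdealRing O → (∀ c : ℂ, algebraMap ℂ K c ∈ O) →
      w ∈ O) : ∃ c : ℂ, algebraMap ℂ K c = w := by
  by_contra hw
  have hz : Transcendental ℂ w⁻¹ := fun ha => by
    have h1 : IsAlgebraic ℂ w := by simpa using ha.inv
    exact hw (minpoly.mem_range_of_degree_eq_one ℂ w
      (IsAlgClosed.degree_eq_one_of_irreducible ℂ (minpoly.irreducible h1.isIntegral)))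
  obtain ⟨t, hzt, ht⟩ := exists_isTranscendenceBasis_superset (R := ℂ) (s := {w⁻¹})
    ((algebraicIndependent_singleton_iff (⟨w⁻¹, rfl⟩ : ({w⁻¹} : Set K))).2 hz)
  have hm : w⁻¹ ∈ t := hzt rfl
  have h1 := ht.1.transcendental_adjoin (s := {⟨w⁻¹, hm⟩}ᶜ) (i := ⟨w⁻¹, hm⟩) (by simp)
  rw [← IntermediateField.transcendental_adjoin_iff] at h1
  set L := IntermediateField.adjoin ℂ (((↑) : t → K) '' {⟨w⁻¹, hm⟩}ᶜ) with hL
  have h2 : IntermediateField.adjoin ℂ (Set.range ((↑) : t → K)) ≤ (L⟮w⁻¹⟯).restrictScalars ℂ := by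
    refine adjoin_le_iff.2 ?_
    rintro _ ⟨x, rfl⟩
    by_cases hx : x = ⟨w⁻¹, hm⟩
    · rw [hx]
      exact mem_adjoin_simple_self L w⁻¹
    · exact (L⟮w⁻¹⟯).algebraMap_mem ⟨x, subset_adjoin _ _ ⟨x, hx, rfl⟩⟩
  let φ : IntermediateField.adjoin ℂ (Set.range ((↑) : t → K)) →+* L⟮w⁻¹⟯ :=
    (IntermediateField.inclusion h2).toRingHom
  haveI : Algebra.IsAlgebraic L⟮w⁻¹⟯ K := ⟨fun x =>
    (ht.isAlgebraic_field.isAlgebraic x).ringHom_of_comp_eq φ (RingHom.id K) φ.injective rfl⟩
  haveI : IsScalarTower ℂ L⟮w⁻¹⟯ K := IsScalarTower.of_algebraMap_eq fun _ => rfl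
  haveI : Algebra.EssFiniteType L⟮w⁻¹⟯ K := Algebra.EssFiniteType.of_comp ℂ _ _
  haveI : Module.Finite L⟮w⁻¹⟯ K := Algebra.finite_of_essFiniteType_of_isAlgebraic
  exact not_forall_dvr (L := L) h1 fun O hO hc => h O hO fun c => hc (algebraMap ℂ L c)

end Pool.Agent.Lib.MP_078bb2_an
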