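import Mathlib
import Pool.Agent.Lib.MP_078bb2_an.NI.Dvr

set_option autoImplicit false

namespace Pool.Agent.Lib.MP_078bb2_an

open PowerSeries

theorem exists_ps_root {m : ℕ} (hm : 0 < m) {c : ℂ⟦X⟧} (hc : constantCoeff c = 1) :
    ∃ b : ℂ⟦X⟧, constantCoeff b = 1 ∧ b ^ m = c := by
  have hs : HasSubst (c - 1) := HasSubst.of_constantCoeff_zero' (by simp [hc])
  have h1 : ∀ n : ℕ, PowerSeries.binomialSeries ℂ ((m : ℂ)⁻¹) ^ n =
      PowerSeries.binomialSeries ℂ (n * (m : ℂ)⁻¹) := by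
    intro n
    induction n with
    | zero => simp
    | succ n ih => rw [pow_succ, ih, ← binomialSeries_add]; congr 1; push_cast; ring
  have hm' : (m : ℂ) ≠ 0 := by exact_mod_cast hm.ne'
  have h2 : PowerSeries.binomialSeries ℂ ((m : ℂ)⁻¹) ^ m = 1 + X := by
    rw [h1, mul_inv_cancel₀ hm']
    simpa using binomialSeries_nat (R := ℂ) (A := ℂ) 1
  have h3 : (substAlgHom hs (PowerSeries.binomialSeries ℂ ((m : ℂ)⁻¹)) : ℂ⟦X⟧) ^ m = c := by
    rw [← map_pow, h2, map_add, map_one, substAlgHom_X]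
    ring
  generalize (substAlgHom hs (PowerSeries.binomialSeries ℂ ((m : ℂ)⁻¹)) : ℂ⟦X⟧) = b at h3
  have h4 : constantCoeff b ^ m = 1 := by rw [← map_pow, h3, hc]
  have h5 : constantCoeff b ≠ 0 := fun h => by simp [h, hm.ne'] at h4
  refine ⟨C (constantCoeff b)⁻¹ * b, by simp [h5], ?_⟩
  rw [mul_pow, ← map_pow, inv_pow, h4, h3]
  simp

theorem ps_pow_inj {S : Type} [CommRing S] {m : ℕ} (hm : IsUnit (m : S)) {A B : S⟦X⟧}
    (h0 : constantCoeff A = constantCoeff B) (hu : IsUnit (constantCoeff A))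
    (h : A ^ m = B ^ m) : A = B := by
  have h1 := geom_sum₂_mul A B m
  rw [h, sub_self] at h1
  have h2 : IsUnit (∑ i ∈ Finset.range m, A ^ i * B ^ (m - 1 - i)) := by
    rw [isUnit_iff_constantCoeff, map_sum, Finset.sum_congr rfl
      (g := fun _ => constantCoeff A ^ (m - 1)) fun i hi => by
        rw [map_mul, map_pow, map_pow, ← h0, ← pow_add]
        congr 1
        have := Finset.mem_range.1 hi
        omega]
    simpa using hm.mul (hu.pow _)
  exact sub_eq_zero.1 (h2.mul_right_eq_zero.1 h1)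

variable {K : Type} [Field K] [Algebra ℂ K]

theorem exists_denom (O : ValuationSubring K) (hc : ∀ c : ℂ, algebraMap ℂ K c ∈ O)
    {W : Submodule ℂ K} (hW : W.FG) : ∃ a : O, a ≠ 0 ∧ ∀ w ∈ W, (a : K) * w ∈ O := by
  obtain ⟨s, rfl⟩ := hW
  obtain ⟨a, ha⟩ := IsLocalization.exist_integer_multiples_of_finset (nonZeroDivisors O) s
  refine ⟨a, nonZeroDivisors.ne_zero a.2, fun w hw => ?_⟩
  induction hw using Submodule.span_induction with
  | mem x hx =>
    obtain ⟨y, hy⟩ := ha x hx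
    have h1 : (y : K) = (a : O) * x := hy
    rw [← h1]
    exact y.2
  | zero => simp
  | add x y _ _ hx hy => rw [mul_add]; exact O.add_mem _ _ hx hy
  | smul c x _ hx =>
    rw [Algebra.smul_def, mul_left_comm]
    exact O.mul_mem _ _ (hc c) hx

theorem exists_lift (O : ValuationSubring K) {H : K⟦X⟧} (h : ∀ n, coeff n H ∈ O) :
    ∃ H' : O⟦X⟧, map O.subtype H' = H :=
  ⟨mk fun n => ⟨coeff n H, h n⟩, by ext n; simp⟩

theorem exists_primitive (O : ValuationSubring K) [IsPrincipalIdealRing O]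
    (hc : ∀ c : ℂ, algebraMap ℂ K c ∈ O) {m k : ℕ} (hm : 1 < m) (hco : Nat.Coprime m k)
    {G : K⟦X⟧} (h0 : constantCoeff G ≠ 0) {W : Submodule ℂ K} (hW : W.FG)
    (hΦ : ∀ n, coeff n (G ^ m) ∈ W) (hΨ : ∀ n, coeff n (G ^ k) ∈ W) :
    ∃ (γ : K) (G' : O⟦X⟧) (j : ℕ), γ ≠ 0 ∧ map O.subtype G' = C γ * G ∧ coeff j G' = 1 := by
  obtain ⟨a, ha0, ha⟩ := exists_denom O hc hW
  have ha1 : (a : K) ≠ 0 := fun h => ha0 (Subtype.ext h)
  obtain ⟨Φ, hΦ'⟩ := exists_lift O (H := C (a : K) * G ^ m) fun n => by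
    rw [coeff_C_mul]; exact ha _ (hΦ n)
  obtain ⟨Ψ, hΨ'⟩ := exists_lift O (H := C (a : K) * G ^ k) fun n => by
    rw [coeff_C_mul]; exact ha _ (hΨ n)
  obtain ⟨b, -, hb⟩ := Nat.exists_mul_mod_eq_one_of_coprime hco.symm hm
  obtain ⟨e, he⟩ : ∃ e, k * b = m * e + 1 := ⟨k * b / m, by rw [← hb, Nat.div_add_mod]⟩
  obtain ⟨m', rfl⟩ : ∃ m', m = m' + 1 := ⟨m - 1, by omega⟩
  have hinj : Function.Injective (map O.subtype : O⟦X⟧ → K⟦X⟧) :=
    map_injective _ Subtype.val_injective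
  have hC : map O.subtype (C a) = C (a : K) := by simp
  have h1 : map O.subtype (C a ^ (e + 1) * Ψ ^ b) =
      map O.subtype (C a ^ b * Φ ^ e) * (C (a : K) * G) := by
    simp only [map_mul, map_pow, hC, hΦ', hΨ', mul_pow, ← pow_mul, he]
    ring
  have h2 : (C a ^ b * Φ ^ e) ^ (m' + 1) ∣ (C a ^ (e + 1) * Ψ ^ b) ^ (m' + 1) :=
    ⟨C a ^ m' * Φ, hinj (by
      rw [map_pow, h1, map_mul _ (_ ^ (m' + 1)), map_pow, map_mul _ (C a ^ m'), map_pow, hC, hΦ']
      ring)⟩
  obtain ⟨Q, hQ⟩ := (IsIntegrallyClosed.pow_dvd_pow_iff (Nat.succ_ne_zero m')).1 h2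
  have hG : G ≠ 0 := fun h => h0 (by simp [h])
  have hCa : (C (a : K) : K⟦X⟧) ≠ 0 := fun h => ha1 (by simpa using congrArg constantCoeff h)
  have h3 : map O.subtype Q = C (a : K) * G := by
    rw [hQ, map_mul] at h1
    refine mul_left_cancel₀ ?_ h1
    simp only [map_mul, map_pow, hC, hΦ']
    exact mul_ne_zero (pow_ne_zero _ hCa) (pow_ne_zero _ (mul_ne_zero hCa (pow_ne_zero _ hG)))
  obtain ⟨_, ⟨j, rfl⟩, hj⟩ := (wellFounded_dvdNotUnit (α := O)).has_min
    (Set.range fun n => coeff n Q) ⟨_, 0, rfl⟩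
  have h4 : ∀ n, coeff j Q ∣ coeff n Q := fun n => by
    rcases ValuationRing.dvd_total (coeff j Q) (coeff n Q) with h | ⟨x, hx⟩
    · exact h
    by_cases hn : coeff n Q = 0
    · simp [hn]
    by_cases hu : IsUnit x
    · rw [hx]
      exact hu.mul_right_dvd.2 dvd_rfl
    · exact absurd ⟨hn, x, hu, hx⟩ (hj _ ⟨n, rfl⟩)
  choose g hg using h4
  have h5 : coeff j Q ≠ 0 := fun h => by
    have h6 := congrArg (coeff 0) h3
    rw [coeff_map, hg 0, h, zero_mul, map_zero, coeff_C_mul, coeff_zero_eq_constantCoeff] at h6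
    exact mul_ne_zero ha1 h0 h6.symm
  have h6 : ((coeff j Q : O) : K) ≠ 0 := fun h => h5 (Subtype.ext h)
  refine ⟨((coeff j Q : O) : K)⁻¹ * a, mk g, j, mul_ne_zero (inv_ne_zero h6) ha1, ?_, ?_⟩
  · ext n
    have h7 := congrArg (coeff n) h3
    rw [coeff_map, hg n, map_mul, coeff_C_mul] at h7
    rw [coeff_map, coeff_mk, coeff_C_mul, mul_assoc, ← h7]
    exact (inv_mul_cancel_left₀ h6 _).symm
  · rw [coeff_mk]
    exact mul_left_cancel₀ h5 ((hg j).symm.trans (mul_one _).symm)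

theorem dvd_of_primitive {O : Type} [CommRing O] [IsLocalRing O] (ι : ℂ →+* O) {m : ℕ}
    (hm : 0 < m) {G : O⟦X⟧} {j₀ : ℕ} (hj : coeff j₀ G = 1) (c : ℕ → Fin (m + 1) → ℂ)
    (hF : ∀ n, coeff n (G ^ m) = ∑ i, ι (c n i) * coeff i (G ^ m)) {b : ℂ⟦X⟧}
    (hb0 : constantCoeff b = 1)
    (hb : b ^ m = mk fun n => if n = 0 then 1 else c (n + m) (Fin.last m)) (j : ℕ) :
    coeff 0 G ∣ coeff (j + 1) G - coeff 1 G * ι (coeff j b) := by
  by_cases hu : IsUnit (coeff 0 G)
  · exact hu.dvd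
  have h1 : map (IsLocalRing.residue O) G ≠ 0 := fun h => by
    simpa [hj] using congrArg (coeff j₀) h
  obtain ⟨i, hi⟩ : ∃ i : Fin (m + 1), IsUnit (coeff i (G ^ m)) := by
    by_contra hn
    push Not at hn
    refine pow_ne_zero m h1 ?_
    ext n
    rw [← map_pow, coeff_map, hF, map_zero, IsLocalRing.residue_eq_zero_iff]
    exact Ideal.sum_mem _ fun i _ => Ideal.mul_mem_left _ _ (hn i)
  let π := Ideal.Quotient.mk (Ideal.span {coeff 0 G})
  obtain ⟨H, hH⟩ : X ∣ map π G := X_dvd_iff.2 (by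
    rw [← coeff_zero_eq_constantCoeff_apply, coeff_map]
    exact Ideal.Quotient.eq_zero_iff_mem.2 (Ideal.mem_span_singleton_self _))
  have h2 : ∀ n, π (coeff (n + 1) G) = coeff n H := fun n => by
    rw [← coeff_map, hH, coeff_succ_X_mul]
  have h3 : ∀ n, π (coeff n (G ^ m)) = coeff n (X ^ m * H ^ m) := fun n => by
    rw [← coeff_map, map_pow, hH, mul_pow]
  have h4 : ∀ n < m, π (coeff n (G ^ m)) = 0 := fun n hn => by
    rw [h3, coeff_X_pow_mul', if_neg (by omega)]
  have h5 : π (coeff m (G ^ m)) = constantCoeff H ^ m := by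
    rw [h3, coeff_X_pow_mul', if_pos le_rfl, Nat.sub_self,
      coeff_zero_eq_constantCoeff_apply (H ^ m), map_pow]
  have h6 : IsUnit (constantCoeff H) := by
    by_cases him : (i : ℕ) < m
    · exact absurd (isUnit_of_dvd_unit (Ideal.mem_span_singleton.1
        (Ideal.Quotient.eq_zero_iff_mem.1 (h4 i him))) hi) hu
    · have h7 : (i : ℕ) = m := by have := i.2; omega
      rw [h7] at hi
      exact (isUnit_pow_iff hm.ne').1 (h5 ▸ hi.map π)
  have h7 : H = C (constantCoeff H) * map (π.comp ι) b := by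
    refine ps_pow_inj (m := m) ?_ ?_ h6 ?_
    · simpa using (Ne.isUnit (by exact_mod_cast hm.ne' : (m : ℂ) ≠ 0)).map (π.comp ι)
    · rw [map_mul, constantCoeff_C, ← coeff_zero_eq_constantCoeff_apply (map _ b), coeff_map,
        coeff_zero_eq_constantCoeff_apply b, hb0, map_one, mul_one]
    · ext n
      rw [mul_pow, ← map_pow C, ← map_pow (map (π.comp ι)), hb, coeff_C_mul, coeff_map, coeff_mk]
      split_ifs with hn
      · rw [hn, coeff_zero_eq_constantCoeff_apply (H ^ m), map_pow, map_one, mul_one]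
      · rw [← coeff_X_pow_mul (H ^ m) m n, ← h3, hF, map_sum, Fin.sum_univ_castSucc,
          Finset.sum_eq_zero fun i _ => by rw [map_mul, h4 _ (by simp), mul_zero], zero_add,
          map_mul, Fin.val_last, h5, mul_comm]
        rfl
  rw [← Ideal.mem_span_singleton, ← Ideal.Quotient.eq]
  change π _ = π _
  have h8 := congrArg (coeff j) h7
  rw [coeff_C_mul, coeff_map] at h8
  rw [h2, map_mul, h2 0, h8, coeff_zero_eq_constantCoeff_apply H]
  rfl

theorem rank_two [Algebra.EssFiniteType ℂ K] {m k : ℕ} (hm : 1 < m) (hco : Nat.Coprime m k)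
    {G : K⟦X⟧} (h0 : constantCoeff G ≠ 0) (c : ℕ → Fin (m + 1) → ℂ)
    (hF : ∀ n, coeff n (G ^ m) = ∑ i, c n i • coeff i (G ^ m))
    {W : Submodule ℂ K} (hW : W.FG) (hΨ : ∀ n, coeff n (G ^ k) ∈ W) (j : ℕ) :
    ∃ a b : ℂ, coeff j G = a • coeff 0 G + b • coeff 1 G := by
  rcases j with _ | j
  · exact ⟨1, 0, by simp⟩
  obtain ⟨b, hb0, hb⟩ := exists_ps_root (m := m) (by omega)
    (c := mk fun n => if n = 0 then 1 else c (n + m) (Fin.last m)) (by
      rw [← coeff_zero_eq_constantCoeff_apply, coeff_mk, if_pos rfl])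
  rw [← coeff_zero_eq_constantCoeff_apply] at h0
  obtain ⟨a, ha⟩ := const_of_forall_dvr
    (w := (coeff (j + 1) G - coeff 1 G * algebraMap ℂ K (coeff j b)) / coeff 0 G) fun O hO hc => by
      obtain ⟨γ, G', j₀, hγ, hG, hj⟩ := exists_primitive O hc hm hco (G := G)
        (by rwa [← coeff_zero_eq_constantCoeff_apply])
        (hW.sup (Submodule.fg_span (Set.finite_range fun i : Fin (m + 1) => coeff i (G ^ m))))
        (fun n => Submodule.mem_sup_right (by
          rw [hF]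
          exact Submodule.sum_mem _ fun i _ => Submodule.smul_mem _ _
            (Submodule.subset_span ⟨i, rfl⟩))) fun n => Submodule.mem_sup_left (hΨ n)
      have h1 : ∀ n, ((coeff n G' : O) : K) = γ * coeff n G := fun n => by
        rw [← coeff_C_mul, ← hG, coeff_map]; rfl
      have h2 : ∀ n, ((coeff n (G' ^ m) : O) : K) = γ ^ m * coeff n (G ^ m) := fun n => by
        rw [← coeff_C_mul, map_pow C, ← mul_pow, ← hG, ← map_pow (map O.subtype), coeff_map]; rfl
      obtain ⟨x, hx⟩ := dvd_of_primitive (O := O) ((algebraMap ℂ K).codRestrict O hc)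
        (by omega) hj c (fun n => Subtype.ext (by
          rw [h2, hF, Finset.mul_sum]
          change _ = O.subtype _
          rw [map_sum]
          refine Finset.sum_congr rfl fun i _ => ?_
          rw [map_mul]
          change _ = algebraMap ℂ K _ * ((coeff i (G' ^ m) : O) : K)
          rw [h2, Algebra.smul_def]
          ring)) hb0 hb j
      have h3 : ((coeff (j + 1) G' : O) : K) - (coeff 1 G' : O) * algebraMap ℂ K (coeff j b) =
          (coeff 0 G' : O) * (x : K) := congrArg O.subtype hx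
      rw [h1, h1, h1] at h3
      have h4 : (coeff (j + 1) G - coeff 1 G * algebraMap ℂ K (coeff j b)) / coeff 0 G = x := by
        rw [div_eq_iff h0]
        exact mul_left_cancel₀ hγ (by linear_combination h3)
      rw [h4]
      exact x.2
  refine ⟨a, coeff j b, ?_⟩
  rw [eq_div_iff h0] at ha
  rw [Algebra.smul_def, Algebra.smul_def]
  linear_combination -ha

end Pool.Agent.Lib.MP_078bb2_an
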