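import Mathlib
import Pool.Agent.Lib.MP_078bb2_an.NI.Rank2

set_option autoImplicit false

namespace Pool.Agent.Lib.MP_078bb2_an

open Polynomial
open scoped PowerSeries

theorem pure_of_pow {m k : ℕ} (hm : 0 < m) (hk : 0 < k) (hco : Nat.Coprime m k) {P Q : ℂ[X]}
    (hP : P.natDegree ≤ m) (h : Q ^ (2 * m) = P ^ (2 * k)) :
    ∃ c l₀ l₁ : ℂ, P = C c * (C l₀ + C l₁ * X) ^ m := by
  by_cases hd : P.degree ≤ 0
  · exact ⟨P.coeff 0, 1, 0, by simpa using eq_C_of_degree_le_zero hd⟩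
  have hP0 : P ≠ 0 := fun h => hd (by simp [h])
  have hQ0 : Q ≠ 0 := fun h0 => by
    rw [h0, zero_pow (by omega)] at h
    exact pow_ne_zero _ hP0 h.symm
  obtain ⟨a, ha⟩ := Complex.exists_root (not_le.1 hd)
  have h1 := congrArg (fun R : ℂ[X] => R.roots.count a) h
  simp only [roots_pow, Multiset.count_nsmul, count_roots] at h1
  have h2 : m ∣ P.rootMultiplicity a :=
    hco.dvd_of_dvd_mul_left ⟨Q.rootMultiplicity a, by nlinarith⟩
  have h3 : m ≤ P.rootMultiplicity a := Nat.le_of_dvd ((rootMultiplicity_pos hP0).2 ha) h2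
  obtain ⟨R, hR⟩ := (le_rootMultiplicity_iff hP0).1 h3
  have hR0 : R ≠ 0 := fun h0 => hP0 (by simp [hR, h0])
  have h4 : R.natDegree = 0 := by
    rw [hR, natDegree_mul (pow_ne_zero _ (X_sub_C_ne_zero a)) hR0, natDegree_pow,
      natDegree_X_sub_C] at hP
    omega
  refine ⟨R.coeff 0, -a, 1, ?_⟩
  rw [← eq_C_of_natDegree_eq_zero h4, hR, map_neg, map_one]
  ring

variable {K : Type} [Field K] [Algebra ℂ K]

theorem coeff_pow_poly {G : K⟦X⟧} {g u : K}
    (h : ∀ j, ∃ a b : ℂ, PowerSeries.coeff j G = a • g + b • (g * u)) (n : ℕ) :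
    ∀ x ∈ Submodule.span ℂ (Set.range fun j => PowerSeries.coeff j (G ^ n)),
      ∃ P : ℂ[X], P.natDegree ≤ n ∧ x = g ^ n * aeval u P := by
  have key : ∀ j, ∃ P : ℂ[X], P.natDegree ≤ n ∧ PowerSeries.coeff j (G ^ n) = g ^ n * aeval u P := by
    choose a b hab using h
    induction n with
    | zero =>
      intro j
      refine ⟨if j = 0 then 1 else 0, by split_ifs <;> simp, ?_⟩
      rw [pow_zero, PowerSeries.coeff_one]
      split_ifs <;> simp
    | succ n ih =>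
      intro j
      choose P hP hP' using ih
      refine ⟨∑ q ∈ Finset.HasAntidiagonal.antidiagonal j, P q.1 * (C (b q.2) * X + C (a q.2)),
        natDegree_sum_le_of_forall_le _ _ fun q _ => natDegree_mul_le.trans
          (add_le_add (hP _) natDegree_linear_le), ?_⟩
      rw [pow_succ, PowerSeries.coeff_mul, map_sum, Finset.mul_sum]
      refine Finset.sum_congr rfl fun q _ => ?_
      simp only [hP', hab, map_mul, map_add, aeval_C, aeval_X, Algebra.smul_def]
      ring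
  intro x hx
  induction hx using Submodule.span_induction with
  | mem x hx => obtain ⟨j, rfl⟩ := hx; exact key j
  | zero => exact ⟨0, by simp, by simp⟩
  | add x y _ _ hx hy =>
    obtain ⟨P, hP, rfl⟩ := hx
    obtain ⟨Q, hQ, rfl⟩ := hy
    exact ⟨P + Q, natDegree_add_le_of_degree_le hP hQ, by rw [map_add, mul_add]⟩
  | smul c x _ hx =>
    obtain ⟨P, hP, rfl⟩ := hx
    exact ⟨c • P, (natDegree_smul_le _ _).trans hP, by rw [map_smul, mul_smul_comm]⟩

theorem exists_curve [Algebra.EssFiniteType ℂ K] {m k : ℕ} (hm : 1 < m) (hk : 0 < k)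
    (hco : Nat.Coprime m k) {Φ Ψ : K⟦X⟧} (h0 : PowerSeries.constantCoeff Φ ≠ 0)
    (h : Ψ ^ m = Φ ^ k) (c : ℕ → Fin (m + 1) → ℂ)
    (hF : ∀ n, PowerSeries.coeff n Φ = ∑ i, c n i • PowerSeries.coeff i Φ)
    {W : Submodule ℂ K} (hW : W.FG) (hΨ : ∀ n, PowerSeries.coeff n Ψ ∈ W)
    {x : Fin (m + 1) → K} (hx : LinearIndependent ℂ x)
    (hx' : ∀ i, x i ∈ Submodule.span ℂ (Set.range fun j => PowerSeries.coeff j Φ)) :
    ∃ E : Fin (m + 1) → ℂ[X], (∀ i, (E i).natDegree ≤ m) ∧ LinearIndependent ℂ E ∧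
      (∀ η : Fin (m + 1) → ℂ,
        ∀ z ∈ Submodule.span ℂ (Set.range fun j => PowerSeries.coeff j Ψ),
        z ^ (2 * m) = (∑ i, η i • x i) ^ (2 * k) →
        ∃ c l₀ l₁ : ℂ, ∑ i, η i • E i = C c * (C l₀ + C l₁ * X) ^ m) ∧
      ∀ a b a' b' : Fin (m + 1) → ℂ,
        (∑ i, a i • x i) * (∑ i, b i • x i) = (∑ i, a' i • x i) * (∑ i, b' i • x i) →
        (∑ i, a i • E i) * (∑ i, b i • E i) = (∑ i, a' i • E i) * (∑ i, b' i • E i) := by
  obtain ⟨b, -, hb⟩ := Nat.exists_mul_mod_eq_one_of_coprime hco.symm hm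
  obtain ⟨e, he⟩ : ∃ e, k * b = m * e + 1 := ⟨k * b / m, by rw [← hb, Nat.div_add_mod]⟩
  obtain ⟨I, hI⟩ : ∃ I, Φ ^ e * I = 1 :=
    ⟨_, PowerSeries.mul_inv_cancel _ (by rw [map_pow]; exact pow_ne_zero _ h0)⟩
  have h1 : (Ψ ^ b * I) ^ m = Φ := by
    calc (Ψ ^ b * I) ^ m = (Ψ ^ m) ^ b * I ^ m := by ring
      _ = Φ * (Φ ^ e * I) ^ m := by rw [h, ← pow_mul, he]; ring
      _ = Φ := by rw [hI, one_pow, mul_one]
  have h2 : (Ψ ^ b * I) ^ k = Ψ := by
    calc (Ψ ^ b * I) ^ k = Ψ ^ (k * b) * I ^ k := by ring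
      _ = Ψ * ((Ψ ^ m) ^ e * I ^ k) := by rw [he]; ring
      _ = Ψ * (Φ ^ e * I) ^ k := by rw [h]; ring
      _ = Ψ := by rw [hI, one_pow, mul_one]
  generalize Ψ ^ b * I = G at h1 h2
  subst h1 h2
  have hG : PowerSeries.constantCoeff G ≠ 0 := fun hG => h0 (by
    rw [map_pow, hG, zero_pow (by omega)])
  have h3 := rank_two hm hco hG c hF hW hΨ
  rw [← PowerSeries.coeff_zero_eq_constantCoeff_apply] at hG
  obtain ⟨u, hu⟩ : ∃ u, PowerSeries.coeff 1 G = PowerSeries.coeff 0 G * u :=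
    ⟨_, (mul_div_cancel₀ _ hG).symm⟩
  rw [hu] at h3
  generalize PowerSeries.coeff 0 G = g at h3 hG
  choose E hE hE' using fun i => coeff_pow_poly h3 m _ (hx' i)
  have h4 : ∀ η : Fin (m + 1) → ℂ, ∑ i, η i • x i = g ^ m * aeval u (∑ i, η i • E i) := fun η => by
    simp only [hE', map_sum, map_smul, Finset.mul_sum, mul_smul_comm]
  have h5 : Transcendental ℂ u := fun ha => by
    obtain ⟨t, rfl⟩ := minpoly.mem_range_of_degree_eq_one ℂ u
      (IsAlgClosed.degree_eq_one_of_irreducible ℂ (minpoly.irreducible ha.isIntegral))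
    have h6 : Submodule.span ℂ (Set.range x) ≤ Submodule.span ℂ {g ^ m} := by
      refine Submodule.span_le.2 ?_
      rintro _ ⟨i, rfl⟩
      refine Submodule.mem_span_singleton.2 ⟨(E i).eval t, ?_⟩
      rw [hE', aeval_algebraMap_apply, coe_aeval_eq_eval, Algebra.smul_def, mul_comm]
    have h7 := Submodule.finrank_mono h6
    rw [finrank_span_eq_card hx, finrank_span_singleton (pow_ne_zero _ hG), Fintype.card_fin] at h7
    omega
  have h6 : Function.Injective (aeval u : ℂ[X] →ₐ[ℂ] K) := transcendental_iff_injective.1 h5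
  refine ⟨E, hE, Fintype.linearIndependent_iff.2 fun η hη =>
    Fintype.linearIndependent_iff.1 hx η (by rw [h4, hη, map_zero, mul_zero]),
    fun η z hz hz' => ?_, fun a b a' b' hq => h6 ?_⟩
  · obtain ⟨Q, -, rfl⟩ := coeff_pow_poly h3 k z hz
    refine pure_of_pow (Q := Q) (by omega) hk hco (natDegree_sum_le_of_forall_le _ _ fun i _ =>
      (natDegree_smul_le _ _).trans (hE i)) (h6 ?_)
    rw [h4] at hz'
    rw [map_pow, map_pow]
    exact mul_left_cancel₀ (pow_ne_zero (2 * m * k) hG) (by linear_combination hz')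
  · simp only [h4] at hq
    rw [map_mul, map_mul]
    exact mul_left_cancel₀ (pow_ne_zero (2 * m) hG) (by linear_combination hq)

end Pool.Agent.Lib.MP_078bb2_an
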