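import Mathlib
import Pool.Agent.Lib.MP_078bb2_an.NI.Disc
import Pool.Agent.Lib.MP_078bb2_an.NI.Field

set_option autoImplicit false

namespace Pool.Agent.Lib.MP_078bb2_an

open Metric Filter Topology ComplexConjugate Polynomial
open scoped PowerSeries

variable {d n m k : ℕ} {p : ℝ}

/-- Restrictions of analytic functions. -/
def anS (U : Set ℂ) : Subalgebra ℂ (U → ℂ) where
  carrier := {f | ∃ F, AnalyticOnNhd ℂ F U ∧ ∀ s : U, f s = F s}
  mul_mem' := fun ⟨F, hF, h⟩ ⟨G, hG, h'⟩ => ⟨F * G, hF.mul hG, fun s => by simp [h, h']⟩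
  add_mem' := fun ⟨F, hF, h⟩ ⟨G, hG, h'⟩ => ⟨F + G, hF.add hG, fun s => by simp [h, h']⟩
  algebraMap_mem' c := ⟨fun _ => c, analyticOnNhd_const, fun _ => rfl⟩

theorem isDomain_of_le {t₀ : ℂ} {δ : ℝ} (hδ : 0 < δ) {R : Subalgebra ℂ (ball t₀ δ → ℂ)}
    (hR : R ≤ anS (ball t₀ δ)) : IsDomain R := by
  haveI : Nonempty (ball t₀ δ) := ⟨⟨t₀, mem_ball_self hδ⟩⟩
  haveI : NoZeroDivisors R := ⟨fun {f g} h => by
    obtain ⟨F, hF, hf⟩ := hR f.2
    obtain ⟨G, hG, hg⟩ := hR g.2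
    refine (hF.eq_zero_or_eq_zero_of_mul_eq_zero hG (fun s hs => ?_)
      (convex_ball t₀ δ).isPreconnected).imp
      (fun h1 => Subtype.ext (funext fun s => (hf s).trans (h1 s s.2)))
      (fun h1 => Subtype.ext (funext fun s => (hg s).trans (h1 s s.2)))
    rw [← hf ⟨s, hs⟩, ← hg ⟨s, hs⟩]
    exact congrFun (congrArg Subtype.val h) ⟨s, hs⟩⟩
  exact NoZeroDivisors.to_isDomain R

theorem curve_of_functions {X : Type} (hm : 1 < m) (hk : 0 < k) (hco : Nat.Coprime m k)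
    {x : Fin (m + 1) → X → ℂ} {N : ℕ} {κ : Fin N → X → ℂ}
    (hdom : IsDomain (Algebra.adjoin ℂ (Set.range x ∪ Set.range κ)))
    (hx : LinearIndependent ℂ x) {y : Fin (m + 1) → ℂ⟦X⟧}
    (hy : ∀ c : Fin (m + 1) → ℂ,
      (∀ j : Fin (m + 1), ∑ i, c i * PowerSeries.coeff j (y i) = 0) → c = 0)
    (hy0 : ∃ i, PowerSeries.coeff 0 (y i) ≠ 0)
    {ψ : ℕ → X → ℂ} (hψ : ∀ j, ψ j ∈ Submodule.span ℂ (Set.range κ))
    (h : ∀ s, (PowerSeries.mk fun j => ψ j s) ^ m =
      (PowerSeries.mk fun j => ∑ i, x i s * PowerSeries.coeff j (y i)) ^ k) :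
    ∃ E : Fin (m + 1) → ℂ[X], (∀ i, (E i).natDegree ≤ m) ∧ LinearIndependent ℂ E ∧
      (∀ η : Fin (m + 1) → ℂ, ∀ g ∈ Submodule.span ℂ (Set.range ψ),
        (∀ s, g s ^ (2 * m) = (∑ i, η i * x i s) ^ (2 * k)) →
        ∃ c l₀ l₁ : ℂ, ∑ i, η i • E i = C c * (C l₀ + C l₁ * Polynomial.X) ^ m) ∧
      ∀ a b a' b' : Fin (m + 1) → ℂ,
        (∀ s, (∑ i, a i * x i s) * (∑ i, b i * x i s) = (∑ i, a' i * x i s) * (∑ i, b' i * x i s)) →
        (∑ i, a i • E i) * (∑ i, b i • E i) = (∑ i, a' i • E i) * (∑ i, b' i • E i) := by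
  set R := Algebra.adjoin ℂ (Set.range x ∪ Set.range κ) with hR
  haveI : Algebra.FiniteType ℂ R :=
    .adjoin_of_finite ((Set.finite_range x).union (Set.finite_range κ))
  let ι : R →ₐ[ℂ] FractionRing R := IsScalarTower.toAlgHom ℂ R _
  have hι : Function.Injective ι := IsFractionRing.injective R _
  let x' : Fin (m + 1) → R := fun i => ⟨x i, Algebra.subset_adjoin (Or.inl ⟨i, rfl⟩)⟩
  let κ' : Fin N → R := fun i => ⟨κ i, Algebra.subset_adjoin (Or.inr ⟨i, rfl⟩)⟩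
  have hx' : ∀ (a : Fin (m + 1) → ℂ) s, (∑ i, a i • x' i : R).1 s = ∑ i, a i * x i s := fun a s => by
    simp [x']
  have hx'' : ∀ a : Fin (m + 1) → ℂ, ∑ i, a i • ι (x' i) = ι (∑ i, a i • x' i) := fun a => by
    simp only [map_sum, map_smul]
  have hsp : ∀ {J : Type} (f : J → R), ∀ g ∈ Submodule.span ℂ (Set.range fun j => (f j).1),
      ∃ g' : R, g'.1 = g ∧ ι g' ∈ Submodule.span ℂ (Set.range fun j => ι (f j)) := by
    intro J f g hg
    induction hg using Submodule.span_induction with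
    | mem g hg => obtain ⟨j, rfl⟩ := hg; exact ⟨f j, rfl, Submodule.subset_span ⟨j, rfl⟩⟩
    | zero => exact ⟨0, rfl, by simp⟩
    | add g g' _ _ hg hg' =>
      obtain ⟨u, rfl, hu⟩ := hg
      obtain ⟨v, rfl, hv⟩ := hg'
      exact ⟨u + v, rfl, by rw [map_add]; exact Submodule.add_mem _ hu hv⟩
    | smul c g _ hg =>
      obtain ⟨u, rfl, hu⟩ := hg
      exact ⟨c • u, rfl, by rw [map_smul]; exact Submodule.smul_mem _ _ hu⟩
  choose ψ' hψ' hψ'' using fun j => hsp κ' (ψ j) (hψ j)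
  let Φ : R⟦X⟧ := PowerSeries.mk fun j => ∑ i, PowerSeries.coeff j (y i) • x' i
  let Ψ : R⟦X⟧ := PowerSeries.mk ψ'
  have h1 : Ψ ^ m = Φ ^ k := by
    ext j s
    let e : R →+* ℂ := (Pi.evalRingHom _ s).comp R.val.toRingHom
    have h2 : PowerSeries.map e Ψ = PowerSeries.mk fun j => ψ j s := by
      ext j
      rw [PowerSeries.coeff_map, PowerSeries.coeff_mk, PowerSeries.coeff_mk, ← hψ']
      rfl
    have h3 : PowerSeries.map e Φ =
        PowerSeries.mk fun j => ∑ i, x i s * PowerSeries.coeff j (y i) := by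
      ext j
      rw [PowerSeries.coeff_map, PowerSeries.coeff_mk, PowerSeries.coeff_mk]
      exact (hx' _ s).trans (Finset.sum_congr rfl fun i _ => mul_comm _ _)
    have h4 := congrArg (PowerSeries.coeff j) (h s)
    rw [← h2, ← h3, ← map_pow, ← map_pow, PowerSeries.coeff_map, PowerSeries.coeff_map] at h4
    exact h4
  have hΦ : ∀ j, PowerSeries.coeff j (PowerSeries.map ι.toRingHom Φ) =
      ∑ i, PowerSeries.coeff j (y i) • ι (x' i) := fun j => by
    rw [PowerSeries.coeff_map, PowerSeries.coeff_mk, hx'']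
    rfl
  have hΨ : ∀ j, PowerSeries.coeff j (PowerSeries.map ι.toRingHom Ψ) = ι (ψ' j) := fun j => by
    rw [PowerSeries.coeff_map, PowerSeries.coeff_mk]
    rfl
  have hli : LinearIndependent ℂ fun i => ι (x' i) :=
    Fintype.linearIndependent_iff.2 fun a ha => Fintype.linearIndependent_iff.1 hx a (by
      rw [hx'', map_eq_zero_iff _ hι] at ha
      ext s
      simpa [ha] using (hx' a s).symm)
  let A : Matrix (Fin (m + 1)) (Fin (m + 1)) ℂ := Matrix.of fun i j => PowerSeries.coeff j (y i)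
  have hA : IsUnit A := Matrix.vecMul_injective_iff_isUnit.1 fun v v' hv => sub_eq_zero.1
    (hy _ fun j => by
      have h2 := congrFun hv j
      simp only [Matrix.vecMul, dotProduct, A, Matrix.of_apply] at h2
      simp only [Pi.sub_apply, sub_mul, Finset.sum_sub_distrib, h2, sub_self])
  have hS : ∀ v : Fin (m + 1) → ℂ, ∃ a : Fin (m + 1) → ℂ, ∑ i, v i • ι (x' i) =
      ∑ j, a j • PowerSeries.coeff j (PowerSeries.map ι.toRingHom Φ) := fun v => by
    obtain ⟨a, rfl⟩ := Matrix.mulVec_surjective_iff_isUnit.2 hA v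
    refine ⟨a, ?_⟩
    simp only [hΦ, Finset.smul_sum, smul_smul]
    rw [Finset.sum_comm]
    refine Finset.sum_congr rfl fun i _ => ?_
    rw [← Finset.sum_smul]
    simp only [Matrix.mulVec, dotProduct, A, Matrix.of_apply, mul_comm]
  choose c hc using fun j => hS fun i => PowerSeries.coeff j (y i)
  obtain ⟨E, hE1, hE2, hE3, hE4⟩ := exists_curve (K := FractionRing R) hm hk hco
    (Φ := PowerSeries.map ι.toRingHom Φ) (Ψ := PowerSeries.map ι.toRingHom Ψ)
    (fun h0 => by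
      rw [← PowerSeries.coeff_zero_eq_constantCoeff_apply, hΦ] at h0
      obtain ⟨i, hi⟩ := hy0
      exact hi (Fintype.linearIndependent_iff.1 hli _ h0 i))
    (by rw [← map_pow, ← map_pow, h1]) c (fun j => (hΦ j).trans (hc j))
    (Submodule.fg_span (Set.finite_range fun i => ι (κ' i))) (fun j => by rw [hΨ]; exact hψ'' j)
    hli (fun i => by
      obtain ⟨a, ha⟩ := hS (Pi.single i 1)
      rw [Finset.sum_eq_single i (fun j _ hj => by simp [hj]) (by simp), Pi.single_eq_same,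
        one_smul] at ha
      rw [ha]
      exact Submodule.sum_mem _ fun j _ => Submodule.smul_mem _ _ (Submodule.subset_span ⟨j, rfl⟩))
  refine ⟨E, hE1, hE2, fun η g hg hg' => ?_, fun a b a' b' hq => hE4 a b a' b' ?_⟩
  · obtain ⟨g', rfl, h2⟩ := hsp ψ' g (by simpa only [hψ'] using hg)
    refine hE3 η (ι g') (by simpa only [hΨ] using h2) ?_
    rw [hx'', ← map_pow, ← map_pow]
    congr 1
    ext s
    have h3 := hg' s
    rw [← hx'] at h3
    exact h3
  · simp only [hx'', ← map_mul]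
    congr 1
    ext s
    have h3 := hq s
    simp only [← hx'] at h3
    exact h3

theorem curve_of_psd (hI : IdealFin p d) (hP : PtFin p d) (hd : 0 < d) (hk : 0 < k)
    (hmk : ((d + 1 : ℕ) : ℝ) * p = k) (hco : Nat.Coprime (d + 1) k)
    {T : Set (Fin (d + 1) → ℂ)} (hT : Psd (kern p) T) (h0 : AccPt 0 (𝓟 T))
    (hfr : ∀ ρ : ℝ, ∃ (N : ℕ) (w : Fin N → Fin (d + 1) → ℂ), (∀ i, w i ∈ T ∧ ‖w i‖ ≤ ρ) ∧
      ∀ v ∈ T, ‖v‖ ≤ ρ → ∃ c : Fin N → ℂ, ∀ z ∈ T, ‖z‖ ≤ ρ →
        kern p z v = ∑ i, c i * kern p z (w i)) :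
    ∃ E : Fin (d + 2) → ℂ[X], (∀ i, (E i).natDegree ≤ d + 1) ∧ LinearIndependent ℂ E ∧
      (∀ (η : Fin (d + 2) → ℂ) (γ : (Fin (d + 1) → ℂ) → ℂ),
        Psd (fun z w => kern p z w - γ z * conj (γ w)) T →
        (∀ z ∈ T, γ z ^ (2 * (d + 1)) = (∑ i, η i * hom z i) ^ (2 * k)) →
        ∃ c l₀ l₁ : ℂ, ∑ i, η i • E i = C c * (C l₀ + C l₁ * X) ^ (d + 1)) ∧
      ∀ a b a' b' : Fin (d + 2) → ℂ,
        (∀ z ∈ T, (∑ i, a i * hom z i) * (∑ i, b i * hom z i) =
          (∑ i, a' i * hom z i) * (∑ i, b' i * hom z i)) →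
        (∑ i, a i • E i) * (∑ i, b i • E i) = (∑ i, a' i • E i) * (∑ i, b' i • E i) := by
  obtain ⟨ρ, Γ, t₀, δ, hρ, hδ, hΓ, hmem, hnd⟩ := exists_disc hI hP hT h0
  obtain ⟨N, w, hw, hw'⟩ := hfr ρ
  have hwH : ∀ i, w i ∈ hull ρ T := fun i => mem_hull_of_mem (hw i).1 (hw i).2
  have hf : ∀ j, AnalyticOnNhd ℂ (fun t => hom (Γ t) j) (ball t₀ δ) := fun j t ht =>
    (analyticAt_coord (LinearIsometryEquiv.refl ℂ _) j _).comp (hΓ t ht)
  have hcj : ∀ τ ∈ ball (conj t₀) δ, conj τ ∈ ball t₀ δ := fun τ hτ => by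
    rwa [mem_ball, ← Complex.dist_conj_conj, Complex.conj_conj]
  have hcj' : ∀ t ∈ ball t₀ δ, conj t ∈ ball (conj t₀) δ := fun t ht => by
    rwa [mem_ball, Complex.dist_conj_conj]
  let Y : Fin (d + 2) → ℂ → ℂ := fun j τ => conj (hom (Γ (conj τ)) j)
  have hY : ∀ j, AnalyticOnNhd ℂ (Y j) (ball (conj t₀) δ) := fun j =>
    DifferentiableOn.analyticOnNhd (fun τ hτ => by
      have h1 := (hf j _ (hcj τ hτ)).differentiableAt.conj_conj
      rw [Complex.conj_conj] at h1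
      exact h1.differentiableWithinAt) isOpen_ball
  obtain ⟨τ₁, hτ₁, hW⟩ : ∃ τ₁ ∈ ball (conj t₀) δ, ∀ c : Fin (d + 2) → ℂ,
      ((d + 2 : ℕ) : ℕ∞) ≤ analyticOrderAt (fun τ => ∑ j, c j * Y j τ) τ₁ → c = 0 := by
    by_contra hn
    push Not at hn
    obtain ⟨c, hc0, hc⟩ := wronsk isOpen_ball (convex_ball _ δ).isPreconnected (mem_ball_self hδ)
      (d + 2) Y hY (Eventually.frequently (mem_nhdsWithin_of_mem_nhds
        (mem_of_superset (ball_mem_nhds _ hδ) fun τ hτ => by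
          obtain ⟨c, h1, h2⟩ := hn τ hτ
          exact ⟨c, h2, h1⟩)))
    refine hc0 (funext fun j => ?_)
    have h1 := hnd (fun j => conj (c j)) fun t ht => by
      have h2 := congrArg conj (hc _ (hcj' t ht))
      simpa [Y] using h2
    simpa using congrFun h1 j
  have hherm : ∀ z v : Fin (d + 1) → ℂ, 1 + herm z v = ∑ i, hom z i * conj (hom v i) := fun z v => by
    rw [← inner_hom, inner_hom_eq]
    exact Finset.sum_congr rfl fun i _ => mul_comm _ _
  let φ : ball t₀ δ → ℂ → ℂ := fun s τ => kern p (Γ s) (Γ (conj τ))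
  have hF : ∀ (s : ball t₀ δ), AnalyticOnNhd ℂ (fun τ => ∑ i, hom (Γ s) i * Y i τ) (ball (conj t₀) δ) :=
    fun s τ hτ => Finset.analyticAt_fun_sum _ fun i _ => analyticAt_const.mul (hY i τ hτ)
  have hφ : ∀ s, AnalyticOnNhd ℂ (φ s) (ball (conj t₀) δ) := fun s τ hτ => by
    simp only [φ, kern, hherm]
    refine (hF s τ hτ).cpow analyticAt_const (Or.inl ?_)
    simp only [Y, ← hherm]
    exact (re_one_add_herm_pos hρ (hmem s s.2).1 (hmem _ (hcj τ hτ)).1).2
  have hsum : ∀ {ι : Type} [Fintype ι] (s : ι → ball t₀ δ) (a : ι → ℂ) (j : ℕ),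
      ∑ l, a l * PowerSeries.coeff j (tay (φ (s l)) τ₁) =
        PowerSeries.coeff j (tay (fun τ => ∑ l, a l * φ (s l) τ) τ₁) := fun s a j =>
    (coeff_tay_sum (fun l => hφ (s l) τ₁ hτ₁) a j).symm
  have hψ : ∀ j, (fun s : ball t₀ δ => PowerSeries.coeff j (tay (φ s) τ₁)) ∈
      Submodule.span ℂ (Set.range fun (i : Fin N) (s : ball t₀ δ) => kern p (Γ s) (w i)) := fun j =>
    mem_of_ann _ (Submodule.fg_span (Set.finite_range _)) fun ι _ s a ha => by
      rw [hsum, tay_congr (g := fun _ => 0), coeff_tay]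
      · simp
      · filter_upwards [isOpen_ball.mem_nhds hτ₁] with τ hτ
        exact rank_hull hρ hT hwH hw' (fun l => hmem _ (s l).2)
          (fun i => ha _ (Submodule.subset_span ⟨i, rfl⟩)) (hmem _ (hcj τ hτ))
  obtain ⟨E, hE1, hE2, hE3, hE4⟩ := curve_of_functions (m := d + 1) (X := ball t₀ δ) (by omega) hk hco
    (x := fun i s => hom (Γ s) i) (κ := fun i s => kern p (Γ s) (w i))
    (isDomain_of_le hδ (Algebra.adjoin_le (by
      rintro _ (⟨i, rfl⟩ | ⟨i, rfl⟩)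
      · exact ⟨_, hf i, fun _ => rfl⟩
      · refine ⟨fun s => kern p (Γ s) (w i), fun t ht => ?_, fun _ => rfl⟩
        simp only [kern, hherm]
        refine (Finset.analyticAt_fun_sum _ fun j _ => (hf j t ht).mul analyticAt_const).cpow
          analyticAt_const (Or.inl ?_)
        exact (re_one_add_herm_pos hρ (hmem t ht).1 (hw i).2).2.trans_eq (by rw [hherm]; rfl))))
    (Fintype.linearIndependent_iff.2 fun c hc => congrFun (hnd c fun t ht => by
      simpa using congrFun hc ⟨t, ht⟩))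
    (y := fun i => tay (Y i) τ₁)
    (fun c hc => hW c (le_order_of_tay
      (Finset.analyticAt_fun_sum _ fun i _ => analyticAt_const.mul (hY i τ₁ hτ₁)) fun j hj =>
        (coeff_tay_sum (fun i => hY i τ₁ hτ₁) c j).trans (hc ⟨j, hj⟩)))
    ⟨0, by simp [coeff_tay, Y]⟩ hψ fun s => by
      have h1 : (PowerSeries.mk fun j => PowerSeries.coeff j (tay (φ s) τ₁)) = tay (φ s) τ₁ := by
        ext j
        rw [PowerSeries.coeff_mk]
      have h2 : (PowerSeries.mk fun j => ∑ i, hom (Γ s) i * PowerSeries.coeff j (tay (Y i) τ₁)) =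
          tay (fun τ => ∑ i, hom (Γ s) i * Y i τ) τ₁ := by
        ext j
        rw [PowerSeries.coeff_mk, coeff_tay_sum fun i => hY i τ₁ hτ₁]
      have h3 : ((d + 1 : ℕ) : ℂ) * (p : ℂ) = (k : ℂ) := by exact_mod_cast hmk
      rw [h1, h2, ← tay_pow (hφ s τ₁ hτ₁), ← tay_pow (hF s τ₁ hτ₁)]
      congr 1
      ext τ
      simp only [Pi.pow_apply, φ, kern, hherm, Y]
      rw [← Complex.cpow_nat_mul, h3, Complex.cpow_natCast]
  refine ⟨E, hE1, hE2, fun η γ hγ hγ' => ?_, fun a b a' b' hq => hE4 a b a' b' fun s => ?_⟩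
  · obtain ⟨G, hG1, hG2, hG3⟩ := hilbert_hull hρ hγ
    refine hE3 η (fun s => G (Γ s)) (mem_of_ann _ ?_ fun ι _ s a ha => ?_) fun s => ?_
    · refine Submodule.FG.of_le (Submodule.fg_span (Set.finite_range
        fun (i : Fin N) (s : ball t₀ δ) => kern p (Γ s) (w i))) (Submodule.span_le.2 ?_)
      rintro _ ⟨j, rfl⟩
      exact hψ j
    · have h1 : AnalyticOnNhd ℂ (fun τ => ∑ l, a l * φ (s l) τ) (ball (conj t₀) δ) := fun τ hτ =>
        Finset.analyticAt_fun_sum _ fun l _ => analyticAt_const.mul (hφ _ τ hτ)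
      have h2 := h1.eqOn_zero_of_preconnected_of_eventuallyEq_zero (convex_ball _ δ).isPreconnected
        hτ₁ (eq_zero_of_tay (h1 τ₁ hτ₁) fun j => by
          rw [← hsum]
          exact ha _ (Submodule.subset_span ⟨j, rfl⟩))
      have h3 := psd_sub_iff.1 hG3 ι (fun l => Γ (s l)) a fun l => hmem _ (s l).2
      have h4 : ∑ i, ∑ j, a i * conj (a j) * kern p (Γ (s i)) (Γ (s j)) = 0 := by
        rw [Finset.sum_comm]
        refine Finset.sum_eq_zero fun j _ => ?_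
        have h5 := h2 (hcj' _ (s j).2)
        simp only [φ, Complex.conj_conj, Pi.zero_apply] at h5
        simp only [mul_right_comm _ (conj (a j))]
        rw [← Finset.sum_mul, h5, zero_mul]
      rw [h4, Complex.zero_re] at h3
      exact norm_eq_zero.1 (pow_eq_zero_iff two_ne_zero |>.1 (le_antisymm h3 (sq_nonneg _)))
    · exact sub_eq_zero.1 ((hmem s s.2).2 _ ((hG1.pow _).sub ((hol_lin ρ η).pow _))
        fun t ht ht' => by rw [hG2 t ht ht', hγ' t ht, sub_self])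
  · exact sub_eq_zero.1 ((hmem s s.2).2 _
      (((hol_lin ρ a).mul (hol_lin ρ b)).sub ((hol_lin ρ a').mul (hol_lin ρ b')))
      fun t ht _ => by rw [hq t ht, sub_self])

end Pool.Agent.Lib.MP_078bb2_an
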