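import Mathlib

set_option autoImplicit false

namespace Pool.Agent.Lib.MP_078bb2_an

open Polynomial ComplexConjugate

variable {m : ℕ}

/-- The vector of powers. -/
def pw (m : ℕ) (t : ℂ) : Fin (m + 1) → ℂ := fun j => t ^ (j : ℕ)

/-- A real vector seen as a complex vector. -/
def cx (y : Fin (m + 1) → ℝ) : Fin (m + 1) → ℂ := fun l => y l

theorem exists_poly_of_dual (φ : (Fin (m + 1) → ℂ) →ₗ[ℂ] ℂ) :
    ∃ q : ℂ[X], q.natDegree ≤ m ∧ ∀ t, φ (pw m t) = q.eval t := by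
  refine ⟨∑ j : Fin (m + 1), C (φ (Pi.single j 1)) * X ^ (j : ℕ),
    natDegree_sum_le_of_forall_le _ _ fun j _ =>
      (natDegree_C_mul_X_pow_le _ _).trans (Nat.lt_succ_iff.1 j.2), fun t => ?_⟩
  rw [LinearMap.pi_apply_eq_sum_univ, eval_finsetSum]
  refine Finset.sum_congr rfl fun j _ => ?_
  rw [eval_mul, eval_C, eval_pow, eval_X, smul_eq_mul, mul_comm, pw]
  congr 2
  ext i
  simp [Pi.single_apply, eq_comm]

theorem dual_cx (φ : (Fin (m + 1) → ℂ) →ₗ[ℂ] ℂ) (y : Fin (m + 1) → ℝ) :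
    φ (cx y) = ∑ l, (y l : ℂ) * φ fun j => if l = j then 1 else 0 := by
  rw [LinearMap.pi_apply_eq_sum_univ]
  rfl

theorem exists_conj_dual (φ : (Fin (m + 1) → ℂ) →ₗ[ℂ] ℂ) :
    ∃ ψ : (Fin (m + 1) → ℂ) →ₗ[ℂ] ℂ, ∀ y, ψ (cx y) = conj (φ (cx y)) := by
  refine ⟨Fintype.linearCombination ℂ fun l => conj (φ fun j => if l = j then 1 else 0),
    fun y => ?_⟩
  rw [dual_cx φ, Fintype.linearCombination_apply, map_sum]
  exact Finset.sum_congr rfl fun l _ => by simp [cx]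

theorem final_real (hm : 1 < m) {S S₀ : Set (Fin (m + 1) → ℝ)} (hS : S₀ ⊆ S) (hinf : S₀.Infinite)
    (hinj : ∀ y ∈ S₀, ∀ y' ∈ S₀, ∀ c : ℂ, cx y = c • cx y' → y = y')
    {x : Fin (m + 1) → ℝ} (hx : x ∈ S₀) (hpos : ∀ y ∈ S₀, x ⬝ᵥ y ≠ 0)
    (hEL : ∀ w : Fin (m + 1) → ℝ, x ⬝ᵥ w = 0 → (∀ y ∈ S, 0 ≤ (x ⬝ᵥ y) * (y ⬝ᵥ w)) →
      ∀ y ∈ S, (x ⬝ᵥ y) * (y ⬝ᵥ w) = 0)
    (L : (Fin (m + 1) → ℂ) ≃ₗ[ℂ] (Fin (m + 1) → ℂ))
    (hL : ∀ y ∈ S, x ⬝ᵥ y ≠ 0 → ∃ σ : ℂ, L (cx y) = ((x ⬝ᵥ y : ℝ) : ℂ) • pw m σ) : False := by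
  choose! σ hσ using hL
  have hσinj : Set.InjOn σ S₀ := fun y hy y' hy' h => by
    have h1 : ((x ⬝ᵥ y' : ℝ) : ℂ) ≠ 0 := by exact_mod_cast hpos y' hy'
    refine hinj y hy y' hy' (((x ⬝ᵥ y : ℝ) : ℂ) / ((x ⬝ᵥ y' : ℝ) : ℂ)) (L.injective ?_)
    rw [map_smul, hσ y (hS hy) (hpos y hy), hσ y' (hS hy') (hpos y' hy'), h, smul_smul,
      div_mul_cancel₀ _ h1]
  have key : ∀ j : Fin (m + 1), ∃ q : ℂ[X], q.natDegree ≤ m ∧
      ∀ y ∈ S, x ⬝ᵥ y ≠ 0 → conj (σ y) ^ (j : ℕ) = q.eval (σ y) := fun j => by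
    obtain ⟨ψ, hψ⟩ := exists_conj_dual (LinearMap.proj j ∘ₗ L.toLinearMap)
    obtain ⟨q, hq, hq'⟩ := exists_poly_of_dual (ψ ∘ₗ L.symm.toLinearMap)
    refine ⟨q, hq, fun y hy hy' => ?_⟩
    have h1 : ((x ⬝ᵥ y : ℝ) : ℂ) ≠ 0 := by exact_mod_cast hy'
    have h2 : cx y = ((x ⬝ᵥ y : ℝ) : ℂ) • L.symm (pw m (σ y)) := by
      rw [← map_smul, ← hσ y hy hy', L.symm_apply_apply]
    have h3 : ψ (cx y) = conj (L (cx y) j) := hψ y
    rw [hσ y hy hy', h2, map_smul, Pi.smul_apply, smul_eq_mul, smul_eq_mul, map_mul,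
      Complex.conj_ofReal, pw, map_pow] at h3
    exact (mul_left_cancel₀ h1 h3).symm.trans (hq' _)
  obtain ⟨q₁, -, hq₁⟩ := key ⟨1, by omega⟩
  obtain ⟨q₂, hq₂, hq₂'⟩ := key (Fin.last m)
  have h1 : q₁ ^ m = q₂ := eq_of_infinite_eval_eq _ _ ((hinf.image hσinj).mono (by
    rintro _ ⟨y, hy, rfl⟩
    rw [Set.mem_ofPred_eq, eval_pow, ← hq₁ y (hS hy) (hpos y hy), ← hq₂' y (hS hy) (hpos y hy)]
    simp))
  have h2 : q₁.natDegree ≤ 1 := by
    rw [← h1, natDegree_pow] at hq₂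
    by_contra h
    nlinarith
  rw [eq_X_add_C_of_natDegree_le_one h2] at hq₁
  generalize q₁.coeff 1 = β at hq₁
  generalize q₁.coeff 0 = α at hq₁
  simp only [pow_one, eval_add, eval_mul, eval_C, eval_X] at hq₁
  let φ : (Fin (m + 1) → ℂ) →ₗ[ℂ] ℂ := (β • (LinearMap.proj (⟨2, by omega⟩ : Fin (m + 1)) -
    (2 * σ x) • LinearMap.proj (⟨1, by omega⟩ : Fin (m + 1)) +
    (σ x ^ 2) • LinearMap.proj (0 : Fin (m + 1)))) ∘ₗ L.toLinearMap
  have h3 : ∀ y ∈ S, x ⬝ᵥ y ≠ 0 → φ (cx y) = ((x ⬝ᵥ y * ‖σ y - σ x‖ ^ 2 : ℝ) : ℂ) := by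
    intro y hy hy'
    have h4 : φ (cx y) = β * (L (cx y) ⟨2, by omega⟩ - 2 * σ x * L (cx y) ⟨1, by omega⟩ +
      σ x ^ 2 * L (cx y) 0) := rfl
    rw [h4, hσ y hy hy', Complex.ofReal_mul, Complex.ofReal_pow, ← Complex.mul_conj', map_sub,
      hq₁ y hy hy', hq₁ x (hS hx) (hpos x hx)]
    simp only [Pi.smul_apply, pw, smul_eq_mul, Fin.val_zero]
    ring
  have h4 : ∀ y : Fin (m + 1) → ℝ,
      y ⬝ᵥ (fun l => (φ fun j => if l = j then 1 else 0).re) = (φ (cx y)).re := fun y => by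
    rw [dual_cx, Complex.re_sum]
    exact Finset.sum_congr rfl fun l _ => by rw [Complex.re_ofReal_mul]
  have h5 := hEL _ (by rw [h4, h3 x (hS hx) (hpos x hx), Complex.ofReal_re]; simp) fun y hy => by
    by_cases hy' : x ⬝ᵥ y = 0
    · simp [hy']
    · rw [h4, h3 y hy hy', Complex.ofReal_re, ← mul_assoc]
      exact mul_nonneg (mul_self_nonneg _) (sq_nonneg _)
  refine hinf ((Set.finite_singleton x).subset fun y hy => hσinj hy hx ?_)
  have h6 := h5 y (hS hy)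
  rw [h4, h3 y (hS hy) (hpos y hy), Complex.ofReal_re] at h6
  simpa [hpos y hy, sub_eq_zero] using h6

theorem coeff_pure (c l₀ l₁ : ℂ) (j : ℕ) : (C c * (C l₀ + C l₁ * X) ^ m).coeff j =
    c * (l₀ ^ (m - j) * l₁ ^ j) * m.choose j := by
  have h : (C l₀ + C l₁ * X) ^ m = ((X + C l₀) ^ m).comp (C l₁ * X) := by simp [add_comm]
  rw [coeff_C_mul, h, comp_C_mul_X_coeff, coeff_X_add_C_pow]
  ring

theorem exists_coord {E : Fin (m + 1) → ℂ[X]} (hE : ∀ i, (E i).natDegree ≤ m)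
    (hli : LinearIndependent ℂ E) : ∃ L : (Fin (m + 1) → ℂ) ≃ₗ[ℂ] (Fin (m + 1) → ℂ),
      ∀ v j, L v j = (∑ i, v i • E i).coeff j / m.choose j := by
  let L₀ : (Fin (m + 1) → ℂ) →ₗ[ℂ] (Fin (m + 1) → ℂ) := LinearMap.pi fun j =>
    ((m.choose j : ℂ)⁻¹ • lcoeff ℂ j) ∘ₗ Fintype.linearCombination ℂ E
  have h1 : ∀ v j, L₀ v j = (∑ i, v i • E i).coeff j / m.choose j := fun v j => by
    simp [L₀, Fintype.linearCombination_apply, div_eq_inv_mul]
  refine ⟨LinearEquiv.ofInjectiveEndo L₀ ((injective_iff_map_eq_zero _).2 fun v hv => ?_), h1⟩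
  ext i
  refine Fintype.linearIndependent_iff.1 hli v ?_ i
  ext j
  by_cases hj : j ≤ m
  · have h2 := h1 v ⟨j, by omega⟩
    rw [hv, Pi.zero_apply, eq_comm, div_eq_zero_iff] at h2
    exact h2.resolve_right (by exact_mod_cast (Nat.choose_pos hj).ne')
  · exact coeff_eq_zero_of_natDegree_lt (lt_of_le_of_lt (natDegree_sum_le_of_forall_le _ _
      fun i _ => (natDegree_smul_le _ _).trans (hE i)) (not_le.1 hj))

theorem coord_pure {E : Fin (m + 1) → ℂ[X]} {L : (Fin (m + 1) → ℂ) ≃ₗ[ℂ] (Fin (m + 1) → ℂ)}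
    (hL : ∀ v j, L v j = (∑ i, v i • E i).coeff j / m.choose j) {v : Fin (m + 1) → ℂ}
    {c l₀ l₁ : ℂ} (h : ∑ i, v i • E i = C c * (C l₀ + C l₁ * X) ^ m) (j : Fin (m + 1)) :
    L v j = c * (l₀ ^ (m - j) * l₁ ^ (j : ℕ)) := by
  rw [hL, h, coeff_pure, mul_div_cancel_right₀]
  exact_mod_cast (Nat.choose_pos (Nat.lt_succ_iff.1 j.2)).ne'

theorem hankel (hm : 0 < m) {p : Fin (m + 1) → ℂ} (h0 : p 0 ≠ 0)
    (h : ∀ j : Fin m, p 0 * p j.succ = p ⟨1, by omega⟩ * p j.castSucc) :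
    p = p 0 • pw m (p ⟨1, by omega⟩ / p 0) := by
  ext j
  induction j using Fin.induction with
  | zero => simp [pw]
  | succ j ih =>
    refine mul_left_cancel₀ h0 ?_
    rw [h j, ih]
    simp only [Pi.smul_apply, pw, smul_eq_mul, Fin.val_succ, Fin.val_castSucc, pow_succ]
    field_simp

theorem veronese (hm : 1 < m) {S S₀ : Set (Fin (m + 1) → ℝ)} (hS : S₀ ⊆ S) (hinf : S₀.Infinite)
    (hinj : ∀ y ∈ S₀, ∀ y' ∈ S₀, ∀ c : ℂ, cx y = c • cx y' → y = y')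
    (hpos : ∀ x ∈ S₀, ∀ y ∈ S₀, x ⬝ᵥ y ≠ 0)
    (hEL : ∀ x ∈ S, ∀ w : Fin (m + 1) → ℝ, x ⬝ᵥ w = 0 → (∀ y ∈ S, 0 ≤ (x ⬝ᵥ y) * (y ⬝ᵥ w)) →
      ∀ y ∈ S, (x ⬝ᵥ y) * (y ⬝ᵥ w) = 0)
    {E : Fin (m + 1) → ℂ[X]} (hE : ∀ i, (E i).natDegree ≤ m) (hli : LinearIndependent ℂ E)
    (hpure : ∀ y ∈ S, ∃ c l₀ l₁ : ℂ, ∑ i, cx y i • E i = C c * (C l₀ + C l₁ * X) ^ m)
    (hQ : ∀ a b a' b' : Fin (m + 1) → ℂ,
      (∀ y ∈ S₀, (a ⬝ᵥ cx y) * (b ⬝ᵥ cx y) = (a' ⬝ᵥ cx y) * (b' ⬝ᵥ cx y)) →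
      (∑ i, a i • E i) * (∑ i, b i • E i) = (∑ i, a' i • E i) * (∑ i, b' i • E i)) : False := by
  have hm0 : 0 < m := by omega
  obtain ⟨L, hL⟩ := exists_coord hE hli
  let a : Fin (m + 1) → Fin (m + 1) → ℂ := fun j l => (E l).coeff j / m.choose j
  have ha : ∀ j v, a j ⬝ᵥ v = L v j := fun j v => by
    rw [hL, finsetSum_coeff, Finset.sum_div]
    exact Finset.sum_congr rfl fun l _ => by rw [coeff_smul, smul_eq_mul]; ring
  have hH : ∀ y ∈ S, ∀ j : Fin m,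
      L (cx y) 0 * L (cx y) j.succ = L (cx y) ⟨1, by omega⟩ * L (cx y) j.castSucc := by
    intro y hy j
    obtain ⟨c, l₀, l₁, h⟩ := hpure y hy
    obtain ⟨r, hr⟩ : ∃ r, m = j + 1 + r := ⟨m - (j + 1), by have := j.2; omega⟩
    have e1 : m - (j + 1) = r := by omega
    have e2 : m - 1 = j + r := by omega
    have e3 : m - j = r + 1 := by omega
    simp only [coord_pure hL h, Fin.val_succ, Fin.val_castSucc, Fin.val_zero, e1, e2, e3,
      Nat.sub_zero]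
    rw [show l₀ ^ m = l₀ ^ (j + 1 + r) by rw [← hr]]
    ring
  let e : ℂ → Fin (m + 1) → ℂ := fun U l => (E l).eval U
  have he : ∀ U j, L (e U) j = (∑ l, a j l • E l).eval U := fun U j => by
    rw [← ha, eval_finsetSum]
    exact Finset.sum_congr rfl fun l _ => by rw [eval_smul, smul_eq_mul]
  have hHe : ∀ U, ∀ j : Fin m,
      L (e U) 0 * L (e U) j.succ = L (e U) ⟨1, by omega⟩ * L (e U) j.castSucc := fun U j => by
    simp only [he, ← eval_mul]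
    rw [hQ (a 0) (a j.succ) (a ⟨1, by omega⟩) (a j.castSucc) fun y hy => by
      simpa only [ha] using hH y (hS hy) j]
  let A : Matrix (Fin (m + 1)) (Fin (m + 1)) ℂ := Matrix.of fun l j => (E l).coeff j
  have hA : IsUnit A := Matrix.vecMul_injective_iff_isUnit.1 fun v v' h => L.injective (by
    ext j
    have h1 := congrFun h j
    simp only [Matrix.vecMul, dotProduct, A, Matrix.of_apply] at h1
    simp only [hL, finsetSum_coeff, coeff_smul, smul_eq_mul, h1])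
  let N := LinearEquiv.ofInjectiveEndo A.mulVecLin (Matrix.mulVec_injective_iff_isUnit.2 hA)
  have hN : ∀ U, N (pw m U) = e U := fun U => by
    ext l
    change ∑ j : Fin (m + 1), (E l).coeff j * U ^ (j : ℕ) = (E l).eval U
    rw [eval_eq_sum_range' (Nat.lt_succ_of_le (hE l)), Finset.sum_range]
  choose π _ hπ using fun j : Fin (m + 1) =>
    exists_poly_of_dual (LinearMap.proj j ∘ₗ N.symm.toLinearMap ∘ₗ L.symm.toLinearMap)
  have hπ' : ∀ v, L v 0 ≠ 0 →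
      (∀ j : Fin m, L v 0 * L v j.succ = L v ⟨1, by omega⟩ * L v j.castSucc) →
      ∀ j, N.symm v j = L v 0 * (π j).eval (L v ⟨1, by omega⟩ / L v 0) := fun v h0 h j => by
    have h1 := congrArg (fun z => N.symm (L.symm z) j) (hankel hm0 h0 h)
    simp only [L.symm_apply_apply, map_smul, Pi.smul_apply, smul_eq_mul] at h1
    rw [h1, ← hπ]
    rfl
  have hM : ∑ l, a 0 l • E l ≠ 0 := fun h => by
    have h1 : N (pw m 0) = 0 := by
      rw [hN]
      ext l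
      have h2 := Fintype.linearIndependent_iff.1 hli _ h l
      simpa [a, e, ← coeff_zero_eq_eval_zero] using h2
    simpa [pw] using congrFun (N.map_eq_zero_iff.1 h1) 0
  have hU : {U | L (e U) 0 ≠ 0}.Infinite := by
    refine ((∑ l, a 0 l • E l).roots.toFinset.finite_toSet.infinite_compl).mono ?_
    intro U hU h
    refine hU ?_
    rw [he] at h
    rwa [Finset.mem_coe, Multiset.mem_toFinset, mem_roots hM]
  have hU1 : ∀ U, L (e U) 0 ≠ 0 → ∀ j : Fin (m + 1),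
      U ^ (j : ℕ) = L (e U) 0 * (π j).eval (L (e U) ⟨1, by omega⟩ / L (e U) 0) := fun U h j => by
    rw [← hπ' _ h (hHe U), ← hN, N.symm_apply_apply, pw]
  have hU2 : Set.InjOn (fun U => L (e U) ⟨1, by omega⟩ / L (e U) 0) {U | L (e U) 0 ≠ 0} := by
    intro U h U' h' hh
    have h1 := hU1 U h 0
    have h2 := hU1 U h ⟨1, by omega⟩
    have h3 := hU1 U' h' 0
    have h4 := hU1 U' h' ⟨1, by omega⟩
    simp only at hh
    rw [hh] at h1 h2
    simp only [Fin.val_zero, pow_zero, pow_one] at h1 h2 h3 h4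
    have h5 : L (e U) 0 = L (e U') 0 := mul_right_cancel₀
      (right_ne_zero_of_mul_eq_one h1.symm) (h1.symm.trans h3)
    rw [h5] at h2
    exact h2.trans h4.symm
  have hπH : ∀ j : Fin m, π 0 * π j.succ = π ⟨1, by omega⟩ * π j.castSucc := fun j =>
    eq_of_infinite_eval_eq _ _ ((hU.image hU2).mono (by
      rintro _ ⟨U, h, rfl⟩
      rw [Set.mem_ofPred_eq, eval_mul, eval_mul]
      refine mul_left_cancel₀ (mul_ne_zero h h) ?_
      rw [mul_mul_mul_comm, ← hU1 U h, ← hU1 U h, mul_mul_mul_comm, ← hU1 U h, ← hU1 U h]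
      simp [pow_succ, mul_comm]))
  have hπ0 : π 0 ≠ 0 := fun h => by
    obtain ⟨U, h1⟩ := hU.nonempty
    simpa [h] using hU1 U h1 0
  have hne : ∀ y ∈ S₀, L (cx y) ≠ 0 := fun y hy h => by
    have h1 : y = 0 := by
      ext l
      simpa [cx] using congrFun (L.map_eq_zero_iff.1 h) l
    exact hpos y hy y hy (by simp [h1])
  have hS₁ : {y | y ∈ S₀ ∧ L (cx y) 0 = 0}.Subsingleton := by
    have h1 : ∀ y ∈ S₀, L (cx y) 0 = 0 → L (cx y) = L (cx y) (Fin.last m) • Pi.single (Fin.last m) 1 := by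
      intro y hy h
      obtain ⟨c, l₀, l₁, h2⟩ := hpure y (hS hy)
      ext j
      by_cases hj : j = Fin.last m
      · simp [hj]
      · have h3 : m - j ≠ 0 := by
          have := Fin.val_lt_last hj
          omega
        rw [coord_pure hL h2] at h ⊢
        have h4 : c = 0 ∨ l₀ = 0 := by simpa [hm0.ne'] using h
        rcases h4 with h4 | h4 <;> simp [h4, hj, h3]
    intro y hy y' hy'
    have h2 : L (cx y') (Fin.last m) ≠ 0 := fun h => hne y' hy'.1 (by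
      rw [h1 y' hy'.1 hy'.2, h, zero_smul])
    refine hinj y hy.1 y' hy'.1 (L (cx y) (Fin.last m) / L (cx y') (Fin.last m)) (L.injective ?_)
    rw [map_smul]
    conv_lhs => rw [h1 y hy.1 hy.2]
    conv_rhs => arg 2; rw [h1 y' hy'.1 hy'.2]
    rw [smul_smul, div_mul_cancel₀ _ h2]
  have hS₂ : Set.InjOn (fun y => L (cx y) ⟨1, by omega⟩ / L (cx y) 0)
      (S₀ \ {y | y ∈ S₀ ∧ L (cx y) 0 = 0}) := by
    intro y hy y' hy' hh
    have h1 : L (cx y) 0 ≠ 0 := fun h => hy.2 ⟨hy.1, h⟩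
    have h2 : L (cx y') 0 ≠ 0 := fun h => hy'.2 ⟨hy'.1, h⟩
    refine hinj y hy.1 y' hy'.1 (L (cx y) 0 / L (cx y') 0) (L.injective ?_)
    rw [map_smul]
    conv_lhs => rw [hankel hm0 h1 (hH y (hS hy.1))]
    conv_rhs => arg 2; rw [hankel hm0 h2 (hH y' (hS hy'.1))]
    simp only at hh
    rw [smul_smul, div_mul_cancel₀ _ h2, hh]
  obtain ⟨_, ⟨x, hx, rfl⟩, hx'⟩ := ((hinf.sdiff hS₁.finite).image hS₂).exists_notMem_finset
    (π 0).roots.toFinset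
  have hx0 : L (cx x) 0 ≠ 0 := fun h => hx.2 ⟨hx.1, h⟩
  have hη := hπ' _ hx0 (hH x (hS hx.1))
  have hη0 : N.symm (cx x) 0 ≠ 0 := by
    rw [hη]
    exact mul_ne_zero hx0 fun h => hx' (by simpa [hπ0] using h)
  have hη1 := hankel hm0 hη0 fun j => by
    simp only [hη]
    rw [mul_mul_mul_comm, ← eval_mul, hπH, eval_mul, mul_mul_mul_comm]
  generalize N.symm (cx x) ⟨1, by omega⟩ / N.symm (cx x) 0 = u at hη1
  generalize N.symm (cx x) 0 = η at hη0 hη1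
  have hxe : cx x = η • e u := by rw [← hN, ← map_smul, ← hη1, N.apply_symm_apply]
  have hT : ∀ v : Fin (m + 1) → ℂ, ∑ i, v i • (η • taylor u (E i)) = η • taylor u (∑ i, v i • E i) :=
    fun v => by simp only [map_sum, map_smul, Finset.smul_sum, smul_comm η]
  obtain ⟨L', hL'⟩ := exists_coord (E := fun i => η • taylor u (E i))
    (fun i => (natDegree_smul_le _ _).trans (by rw [natDegree_taylor]; exact hE i))
    (Fintype.linearIndependent_iff.2 fun v hv => Fintype.linearIndependent_iff.1 hli v (by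
      rw [hT, smul_eq_zero_iff_right hη0] at hv
      exact taylor_injective u (by rw [hv, map_zero])))
  refine final_real hm hS hinf hinj hx.1 (hpos x hx.1) (hEL x (hS hx.1)) L' fun y hy hy' => ?_
  obtain ⟨c, l₀, l₁, h⟩ := hpure y hy
  have h1 : ((x ⬝ᵥ y : ℝ) : ℂ) = η * c * (l₀ + l₁ * u) ^ m := by
    have h2 := congrArg (eval u) h
    simp only [eval_finsetSum, eval_smul, eval_mul, eval_C, eval_pow, eval_add, eval_X,
      smul_eq_mul] at h2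
    rw [mul_assoc, ← h2, Finset.mul_sum, dotProduct, Complex.ofReal_sum]
    refine Finset.sum_congr rfl fun l _ => ?_
    have h3 : (x l : ℂ) = η * (E l).eval u := congrFun hxe l
    rw [Complex.ofReal_mul, h3, cx]
    ring
  have h2 : l₀ + l₁ * u ≠ 0 := fun h0 => hy' (by
    rw [h0, zero_pow hm0.ne', mul_zero] at h1
    exact_mod_cast h1)
  have h3 : ∑ i, cx y i • (η • taylor u (E i)) = C (η * c) * (C (l₀ + l₁ * u) + C l₁ * X) ^ m := by
    rw [hT, h, smul_eq_C_mul]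
    simp only [taylor_apply, mul_comp, C_comp, pow_comp, add_comp, X_comp, map_mul, map_add]
    ring
  refine ⟨l₁ / (l₀ + l₁ * u), funext fun j => ?_⟩
  obtain ⟨r, hr⟩ : ∃ r, m = j + r := ⟨m - j, by have := j.2; omega⟩
  rw [coord_pure hL' h3, h1, Pi.smul_apply, pw, smul_eq_mul, div_pow,
    show m - (j : ℕ) = r by omega, show (l₀ + l₁ * u) ^ m = (l₀ + l₁ * u) ^ (j + r) by rw [← hr]]
  field_simp
  ring

end Pool.Agent.Lib.MP_078bb2_an
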