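import Mathlib
import Pool.Agent.Lib.MP_078bb2_an.NI.Glue
import Pool.Agent.Lib.MP_078bb2_an.NI.Veronese
import Pool.Agent.Lib.MP_078bb2_an.Rank
import Pool.Agent.Lib.MP_078bb2_an.Cubic

set_option autoImplicit false

namespace Pool.Agent.Lib.MP_078bb2_an

open MeasureTheory Metric Filter Topology ComplexConjugate

variable {d n m k : ℕ} {p : ℝ}

theorem Psd.image {X Y : Type} {κ : Y → Y → ℂ} {φ : X → Y} {T : Set X}
    (h : Psd (fun x y => κ (φ x) (φ y)) T) : Psd κ (φ '' T) := fun ι _ z c hz => by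
  choose x hx hxz using hz
  simpa only [hxz] using h ι x c hx

theorem psd_ofReal {X : Type} {K : X → X → ℝ} {S : Set X}
    (hS : ∀ (ι : Type) [Fintype ι] (x : ι → X) (a : ι → ℝ), (∀ i, x i ∈ S) →
      0 ≤ ∑ i, ∑ j, a i * a j * K (x i) (x j)) : Psd (fun x y => (K x y : ℂ)) S := by
  intro ι _ x c hx
  refine (add_nonneg (hS ι x (fun i => (c i).re) hx) (hS ι x (fun i => (c i).im) hx)).trans_eq ?_
  simp only [Complex.re_sum, Complex.re_mul_ofReal, ← Finset.sum_add_distrib]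
  refine Finset.sum_congr rfl fun i _ => Finset.sum_congr rfl fun j _ => ?_
  simp only [Complex.mul_re, Complex.conj_re, Complex.conj_im]
  ring

theorem not_accPt_of_el (hI : IdealFin p d) (hP : PtFin p d) (hd : 0 < d) (hk : 0 < k)
    (hmk : ((d + 1 : ℕ) : ℝ) * p = k) (hco : Nat.Coprime (d + 1) k)
    {S : Set (Fin (d + 2) → ℝ)} (hn : ∀ y ∈ S, y ⬝ᵥ y = 1)
    (hS : ∀ (ι : Type) [Fintype ι] (x : ι → Fin (d + 2) → ℝ) (a : ι → ℝ), (∀ i, x i ∈ S) →
      0 ≤ ∑ i, ∑ j, a i * a j * |x i ⬝ᵥ x j| ^ p)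
    (hEL : ∀ x ∈ S, ∀ w : Fin (d + 2) → ℝ, x ⬝ᵥ w = 0 → (∀ y ∈ S, 0 ≤ (x ⬝ᵥ y) * (y ⬝ᵥ w)) →
      ∀ y ∈ S, (x ⬝ᵥ y) * (y ⬝ᵥ w) = 0) (ha : AccPt (Pi.single 0 1) (𝓟 S)) : False := by
  have h1 : ∀ᶠ z : (Fin (d + 2) → ℝ) × (Fin (d + 2) → ℝ) in 𝓝 (Pi.single 0 1, Pi.single 0 1),
      0 < z.1 ⬝ᵥ z.2 :=
    (continuous_fst.dotProduct continuous_snd).continuousAt.eventually (lt_mem_nhds (by simp))
  rw [nhds_prod_eq, eventually_prod_self_iff'] at h1
  obtain ⟨V, hV, h1⟩ := h1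
  have h2 : ∀ y ∈ V, 0 < y 0 := fun y hy => by simpa using h1 y hy _ (mem_of_mem_nhds hV)
  have hacc := ha.nhds_inter hV
  let Z : (Fin (d + 2) → ℝ) → Fin (d + 1) → ℂ := fun y i => ((y i.succ / y 0 : ℝ) : ℂ)
  have hZ : ∀ y ∈ V, ∀ a : Fin (d + 2) → ℂ,
      ∑ i, a i * hom (Z y) i = ((y 0)⁻¹ : ℝ) * (a ⬝ᵥ cx y) := fun y hy a => by
    have h3 : (y 0 : ℂ) ≠ 0 := by exact_mod_cast (h2 y hy).ne'
    rw [dotProduct, Finset.mul_sum]
    refine Finset.sum_congr rfl fun i _ => ?_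
    refine Fin.cases ?_ (fun i => ?_) i
    · simp only [hom_zero, cx]
      push_cast
      field_simp
    · simp only [hom_succ, Z, cx]
      push_cast
      field_simp
  have hcx : ∀ x y : Fin (d + 2) → ℝ, cx x ⬝ᵥ cx y = ((y ⬝ᵥ x : ℝ) : ℂ) := fun x y => by
    simp [cx, dotProduct, mul_comm]
  have h3 : ∀ x ∈ V, ∀ y ∈ V, kern p (Z x) (Z y) =
      (((x 0)⁻¹ ^ p * (y 0)⁻¹ ^ p * |x ⬝ᵥ y| ^ p : ℝ) : ℂ) := by
    intro x hx y hy
    have h6 := (inv_pos.2 (h2 x hx)).le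
    have h7 := (inv_pos.2 (h2 y hy)).le
    have h4 : 1 + herm (Z x) (Z y) = (((x 0)⁻¹ * (y 0)⁻¹ * |x ⬝ᵥ y| : ℝ) : ℂ) := by
      have h8 : (x 0 : ℂ) ≠ 0 := by exact_mod_cast (h2 x hx).ne'
      have h9 : (y 0 : ℂ) ≠ 0 := by exact_mod_cast (h2 y hy).ne'
      rw [abs_of_pos (h1 x hx y hy), dotProduct, Fin.sum_univ_succ, mul_add, Finset.mul_sum, herm]
      push_cast
      congr 1
      · field_simp
      · refine Finset.sum_congr rfl fun i _ => ?_
        simp only [Z, Complex.conj_ofReal]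
        push_cast
        field_simp
    rw [kern, h4, ← Complex.ofReal_cpow (by positivity), Real.mul_rpow (by positivity) (abs_nonneg _),
      Real.mul_rpow h6 h7]
  have hK := psd_ofReal (K := fun x y => |x ⬝ᵥ y| ^ p) hS
  have hT : Psd (kern p) (Z '' (V ∩ S)) :=
    (((hK.mul fun y => (((y 0)⁻¹ ^ p : ℝ) : ℂ)).mono Set.inter_subset_right).congr
      fun x hx y hy => by
        rw [h3 x hx.1 y hy.1, Complex.conj_ofReal, Complex.ofReal_mul, Complex.ofReal_mul]).image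
  have hinj : ∀ y ∈ V ∩ S, ∀ y' ∈ V ∩ S, ∀ c : ℂ, cx y = c • cx y' → y = y' := by
    intro y hy y' hy' c hc
    have h4 : ((y' ⬝ᵥ y : ℝ) : ℂ) = c := by
      rw [← hcx, hc, smul_dotProduct, hcx, hn y' hy'.2]
      simp
    have h5 : y = (y' ⬝ᵥ y) • y' := by
      ext l
      have h6 := congrFun hc l
      rw [← h4] at h6
      simp only [cx, Pi.smul_apply, smul_eq_mul] at h6
      exact_mod_cast h6
    have h6 := h1 y' hy'.1 y hy.1
    generalize y' ⬝ᵥ y = r at h5 h6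
    have h7 := hn y hy.2
    rw [h5, smul_dotProduct, dotProduct_smul, hn y' hy'.2, smul_eq_mul, smul_eq_mul] at h7
    have h8 : r = 1 := by nlinarith
    rw [h5, h8, one_smul]
  have h0 : AccPt 0 (𝓟 (Z '' (V ∩ S))) := by
    have h4 : ContinuousAt Z (Pi.single 0 1) := continuousAt_pi.2 fun i =>
      Complex.continuous_ofReal.continuousAt.comp
        ((continuous_apply _).continuousAt.div (continuous_apply _).continuousAt (by simp))
    have h5 : Z (Pi.single 0 1) = 0 := by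
      ext i
      simp [Z]
    rw [accPt_iff_frequently] at hacc ⊢
    refine (h5 ▸ h4.tendsto).frequently (hacc.mono fun y hy => ⟨fun h6 => hy.1 ?_, y, hy.2, rfl⟩)
    have h7 := h2 y hy.2.1
    have h8 : ∀ i : Fin (d + 1), y i.succ = 0 := fun i => by
      simpa [Z, h7.ne'] using congrFun h6 i
    have h9 := hn y hy.2.2
    rw [dotProduct, Fin.sum_univ_succ] at h9
    simp only [h8, mul_zero, Finset.sum_const_zero, add_zero] at h9
    ext i
    refine Fin.cases ?_ (fun i => ?_) i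
    · rw [Pi.single_eq_same]
      nlinarith
    · simp [h8]
  obtain ⟨E, hE1, hE2, hE3, hE4⟩ := curve_of_psd hI hP hd hk hmk hco hT h0 fun ρ => by
    obtain ⟨N, b, hb⟩ := finite_rank (X := {y // y ∈ V ∩ S ∧ ‖Z y‖ ≤ ρ})
      (K := fun x y => |x.1 ⬝ᵥ y.1| ^ p) (fun x y => by rw [dotProduct_comm]) Set.univ
      (fun ι _ x a _ => hS ι (fun i => (x i).1) a fun i => (x i).2.1.2) _ fun b => by
        simpa [PiLp.inner_apply, dotProduct, mul_comm] using
          not_posDef (ι := Fin (d + 2)) (by omega) hmk fun i => WithLp.toLp 2 (b i).1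
    refine ⟨N, fun i => Z (b i).1, fun i => ⟨⟨_, (b i).2.1, rfl⟩, (b i).2.2⟩, ?_⟩
    rintro _ ⟨y, hy, rfl⟩ hy'
    obtain ⟨c, hc⟩ := hb ⟨y, hy, hy'⟩ (Set.mem_univ _)
    refine ⟨fun i => ((c i * (y 0)⁻¹ ^ p / ((b i).1 0)⁻¹ ^ p : ℝ) : ℂ), ?_⟩
    rintro _ ⟨x, hx, rfl⟩ hx'
    have h4 := hc ⟨x, hx, hx'⟩ (Set.mem_univ _)
    simp only [h3 x hx.1 y hy.1, fun i => h3 x hx.1 _ (b i).2.1.1, ← Complex.ofReal_mul,
      ← Complex.ofReal_sum]
    congr 1
    rw [dotProduct_comm, h4, Finset.mul_sum]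
    refine Finset.sum_congr rfl fun i _ => ?_
    have h5 := (Real.rpow_pos_of_pos (inv_pos.2 (h2 _ (b i).2.1.1)) p).ne'
    rw [dotProduct_comm x]
    generalize ((b i).1 0)⁻¹ ^ p = u at h5 ⊢
    generalize (x 0)⁻¹ ^ p = v
    generalize (y 0)⁻¹ ^ p = w
    field_simp
  refine veronese (m := d + 1) (by omega) Set.inter_subset_right (Set.Infinite.of_accPt hacc) hinj
    (fun x hx y hy => (h1 x hx.1 y hy.1).ne') hEL hE1 hE2 (fun η hη => ?_)
    fun a b a' b' hq => hE4 a b a' b' ?_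
  · have h4 : ∀ y ∈ V, ∑ i, cx η i * hom (Z y) i = (((y 0)⁻¹ * (y ⬝ᵥ η) : ℝ) : ℂ) := fun y hy => by
      rw [hZ y hy, hcx, Complex.ofReal_mul]
    have h5 : ∀ y ∈ V, ‖∑ i, cx η i * hom (Z y) i‖ ^ p = (y 0)⁻¹ ^ p * |y ⬝ᵥ η| ^ p :=
      fun y hy => by
        have h6 := (inv_pos.2 (h2 y hy)).le
        rw [h4 y hy, Complex.norm_real, Real.norm_eq_abs, abs_mul, abs_of_nonneg h6,
          Real.mul_rpow h6 (abs_nonneg _)]
    refine hE3 (cx η) (fun z => ((‖∑ i, cx η i * hom z i‖ ^ p : ℝ) : ℂ)) (Psd.image ?_) ?_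
    · refine (((hK.schur hη (fun z _ => by rw [Complex.conj_ofReal, dotProduct_comm]) one_pos
        (by simp [hn η hη])).mul fun y => (((y 0)⁻¹ ^ p : ℝ) : ℂ)).mono
        Set.inter_subset_right).congr fun x hx y hy => ?_
      rw [h3 x hx.1 y hy.1, h5 x hx.1, h5 y hy.1]
      simp only [Complex.ofReal_one, div_one, Complex.conj_ofReal, Complex.ofReal_mul, map_mul]
      ring
    · rintro _ ⟨y, hy, rfl⟩
      have e2 : p * ((2 * (d + 1) : ℕ) : ℝ) = ((2 * k : ℕ) : ℝ) := by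
        push_cast at hmk ⊢
        linarith
      rw [h4 y hy.1, Complex.norm_real, ← Complex.ofReal_pow, ← Complex.ofReal_pow,
        ← Real.rpow_natCast, ← Real.rpow_mul (norm_nonneg _), e2, Real.rpow_natCast,
        Real.norm_eq_abs, (even_two_mul k).pow_abs]
  · rintro _ ⟨y, hy, rfl⟩
    simp only [hZ y hy.1]
    rw [mul_mul_mul_comm, hq y hy, mul_mul_mul_comm]

theorem first_variation {X : Type} [MetricSpace X] [CompactSpace X] [MeasurableSpace X]
    [BorelSpace X] (h2 : 2 ≤ p) (μ : Measure X) [IsProbabilityMeasure μ] {A B : X → ℝ}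
    (hA : Continuous A) (hB : Continuous B)
    (h3 : ∀ t : ℝ, ∫ y, |A y| ^ p ∂μ ≤ ∫ y, |A y + t * B y| ^ p ∂μ)
    (h : ∀ y ∈ μ.support, 0 ≤ A y * B y) : ∀ y ∈ μ.support, A y * B y = 0 := by
  let F : ℝ → X → ℝ := fun t y => |A y + t * B y| ^ p
  let F' : ℝ → X → ℝ := fun t y => p * |A y + t * B y| ^ (p - 2) * (A y + t * B y) * B y
  have hF : ∀ t, Continuous (F t) := fun t =>
    Continuous.rpow_const (by fun_prop) fun _ => Or.inr (by linarith)
  have hF' : Continuous fun z : ℝ × X => F' z.1 z.2 :=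
    ((continuous_const.mul (Continuous.rpow_const (by fun_prop) fun _ =>
      Or.inr (by linarith))).mul (by fun_prop)).mul (by fun_prop)
  have hF0 : Continuous (F' 0) := hF'.comp (Continuous.prodMk_right 0)
  obtain ⟨C, hC⟩ := ((isCompact_closedBall (0 : ℝ) 1).prod isCompact_univ).exists_bound_of_continuousOn
    hF'.continuousOn
  have h1 := (hasDerivAt_integral_of_dominated_loc_of_deriv_le (μ := μ) (F := F) (F' := F')
    (bound := fun _ => C) (closedBall_mem_nhds (0 : ℝ) one_pos)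
    (Eventually.of_forall fun t => (hF t).aestronglyMeasurable) (integrable_cont (hF 0))
    hF0.aestronglyMeasurable
    (Eventually.of_forall fun y t ht => hC (t, y) ⟨ht, Set.mem_univ _⟩) (integrable_const _)
    (Eventually.of_forall fun y t _ => by
      have h1 := (hasDerivAt_abs_rpow _ (by linarith : 1 < p)).comp t
        (((hasDerivAt_id t).mul_const (B y)).const_add (A y))
      rw [one_mul] at h1
      exact h1)).2
  have h4 : ∫ y, F' 0 y ∂μ = 0 := IsLocalMin.hasDerivAt_eq_zero (Eventually.of_forall fun t => by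
    simpa only [F, zero_mul, add_zero] using h3 t) h1
  have h5 : ∀ y, F' 0 y = p * |A y| ^ (p - 2) * (A y * B y) := fun y => by
    simp only [F', zero_mul, add_zero]
    ring
  have h6 : ∀ y ∈ μ.support, max (F' 0 y) 0 = F' 0 y := fun y hy => max_eq_left (by
    rw [h5]
    exact mul_nonneg (mul_nonneg (by linarith) (by positivity)) (h y hy))
  intro y hy
  by_contra hne
  have h7 := pos_of_mem_support (μ := μ) (hF0.max continuous_const) (fun y => le_max_right _ 0) hy (by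
    rw [h6 y hy, h5]
    exact mul_ne_zero (mul_ne_zero (by linarith)
      (Real.rpow_pos_of_pos (abs_pos.2 (left_ne_zero_of_mul hne)) _).ne') hne)
  rw [integral_congr_ae (g := F' 0) (mem_of_superset μ.support_mem_ae h6), h4] at h7
  exact lt_irrefl _ h7

theorem euler_lagrange {ι : Type} [Fintype ι] (h2 : 2 ≤ p)
    (μ : Measure (sphere (0 : EuclideanSpace ℝ ι) 1)) [IsProbabilityMeasure μ]
    (hmin : IsMinim (fun x y : sphere (0 : EuclideanSpace ℝ ι) 1 => |inner ℝ x.1 y.1| ^ p) μ)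
    {x : sphere (0 : EuclideanSpace ℝ ι) 1} (hx : x ∈ μ.support) {w : EuclideanSpace ℝ ι}
    (hw : inner ℝ x.1 w = 0) (h : ∀ y ∈ μ.support, 0 ≤ inner ℝ x.1 y.1 * inner ℝ y.1 w) :
    ∀ y ∈ μ.support, inner ℝ x.1 y.1 * inner ℝ y.1 w = 0 := by
  have hK : Continuous fun z : sphere (0 : EuclideanSpace ℝ ι) 1 ×
      sphere (0 : EuclideanSpace ℝ ι) 1 => |inner ℝ z.1.1 z.2.1| ^ p :=
    Continuous.rpow_const (by fun_prop) fun _ => Or.inr (by linarith)
  have hs : ∀ x y : sphere (0 : EuclideanSpace ℝ ι) 1,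
      |inner ℝ x.1 y.1| ^ p = |inner ℝ y.1 x.1| ^ p := fun x y => by rw [real_inner_comm]
  refine first_variation h2 μ (A := fun y => inner ℝ x.1 y.1) (B := fun y => inner ℝ y.1 w)
    (by fun_prop) (by fun_prop) (fun t => ?_) h
  have h4 : 1 ≤ ‖x.1 + t • w‖ := by
    have h5 := abs_real_inner_le_norm x.1 (x.1 + t • w)
    rw [inner_add_right, real_inner_smul_right, hw, real_inner_self_eq_norm_sq,
      norm_eq_of_mem_sphere] at h5
    simpa using h5
  have h5 : 0 < ‖x.1 + t • w‖ := by linarith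
  obtain ⟨v, hv⟩ : ∃ v : sphere (0 : EuclideanSpace ℝ ι) 1,
      v.1 = ‖x.1 + t • w‖⁻¹ • (x.1 + t • w) := ⟨⟨_, by
    rw [mem_sphere_zero_iff_norm, norm_smul, norm_inv, norm_norm, inv_mul_cancel₀ h5.ne']⟩, rfl⟩
  have h7 : Continuous fun y : sphere (0 : EuclideanSpace ℝ ι) 1 =>
      |inner ℝ x.1 y.1 + t * inner ℝ y.1 w| ^ p :=
    Continuous.rpow_const (by fun_prop) fun _ => Or.inr (by linarith)
  have h8 : Continuous fun y : sphere (0 : EuclideanSpace ℝ ι) 1 => |inner ℝ v.1 y.1| ^ p :=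
    Continuous.rpow_const (by fun_prop) fun _ => Or.inr (by linarith)
  refine ((pot_eq hK hs hmin hx).le.trans (pot_ge hK hs hmin v)).trans
    (integral_mono (integrable_cont h8) (integrable_cont h7) fun y => ?_)
  refine Real.rpow_le_rpow (abs_nonneg _) ?_ (by linarith)
  rw [hv, real_inner_smul_left, inner_add_left, real_inner_smul_left, real_inner_comm y.1 w, abs_mul]
  exact mul_le_of_le_one_left (abs_nonneg _) (by
    rw [abs_of_pos (inv_pos.2 h5)]
    exact inv_le_one_of_one_le₀ h4)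

theorem finite_den (hd : 0 < d) (h2 : 2 ≤ p) (hmk : ((d + 1 : ℕ) : ℝ) * p = k)
    (hco : Nat.Coprime (d + 1) k)
    (μ : Measure (sphere (0 : EuclideanSpace ℝ (Fin (d + 2))) 1)) [IsProbabilityMeasure μ]
    (hmin : IsMinim (fun x y : sphere (0 : EuclideanSpace ℝ (Fin (d + 2))) 1 =>
      |inner ℝ x.1 y.1| ^ p) μ) : μ.support.Finite := by
  by_contra hinf
  obtain ⟨a, -, ha⟩ := Set.Infinite.exists_accPt_of_subset_isCompact hinf isCompact_univ
    (Set.subset_univ _)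
  obtain ⟨b, hb⟩ := Orthonormal.exists_orthonormalBasis_extension_of_card_eq (𝕜 := ℝ)
    (ι := Fin (d + 2)) (v := fun _ => a.1) (s := {0}) (by simp) (by
      rw [orthonormal_subsingleton_iff]
      intro i
      simp)
  let φ : EuclideanSpace ℝ (Fin (d + 2)) → Fin (d + 2) → ℝ := fun y i => b.repr y i
  have hφ : ∀ x y, φ x ⬝ᵥ φ y = inner ℝ x y := fun x y => by
    rw [← b.repr.inner_map_map, PiLp.inner_apply]
    exact Finset.sum_congr rfl fun i _ => by simp [φ, mul_comm]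
  have hp0 : 0 < p := by linarith
  have hk : 0 < k := by
    have : (0 : ℝ) < k := by rw [← hmk]; positivity
    exact_mod_cast this
  obtain ⟨hI, hP⟩ := fin_rat hp0 hmk hco d (by omega)
  refine not_accPt_of_el hI hP hd hk hmk hco (S := (fun y => φ y.1) '' μ.support) ?_
    (fun ι _ x c hx => ?_) ?_ ?_
  · rintro _ ⟨y, -, rfl⟩
    rw [hφ, real_inner_self_eq_norm_sq]
    simp
  · choose y hy hyx using hx
    simp only [← hyx, hφ]
    exact psd_support (μ := μ) (Continuous.rpow_const (by fun_prop) fun _ => Or.inr hp0.le)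
      (fun x y => by positivity) hmin y c hy
  · rintro _ ⟨x, hx, rfl⟩ w hw h _ ⟨y, hy, rfl⟩
    obtain ⟨w, rfl⟩ : ∃ v, φ v = w := ⟨b.repr.symm (WithLp.toLp 2 w), by ext i; simp [φ]⟩
    simp only [hφ] at hw ⊢
    exact euler_lagrange h2 μ hmin hx hw (fun y hy => by simpa only [hφ] using h _ ⟨y, hy, rfl⟩) y hy
  · have h3 : Continuous fun y : sphere (0 : EuclideanSpace ℝ (Fin (d + 2))) 1 => φ y.1 := by
      fun_prop
    have h4 : φ a.1 = Pi.single 0 1 := by
      ext i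
      simp [φ, ← hb 0 rfl, Pi.single_apply]
    rw [accPt_iff_frequently] at ha ⊢
    refine (h3.tendsto' a _ h4).frequently (ha.mono fun y hy => ⟨fun h5 => hy.1 ?_, y, hy.2, rfl⟩)
    rw [← h4] at h5
    exact Subtype.ext (b.repr.injective (PiLp.ext fun i => congrFun h5 i))

end Pool.Agent.Lib.MP_078bb2_an
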